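import Pool.Agent.CMD.Defs

/-!
CMD, module Cells: counting points of a coset of an ideal in a box.
-/

set_option autoImplicit false

namespace Pool.Agent.CMD

open NumberField Finset

section
variable (K : Type*) [Field K] [NumberField K]

theorem absNorm_le_of_mem (Q : Ideal (𝓞 K)) (z : 𝓞 K) (hz : z ≠ 0) (hzQ : z ∈ Q) :
    ((Ideal.absNorm Q : ℕ) : ℝ) ≤ ((Ideal.absNorm (Ideal.span {z}) : ℕ) : ℝ) := by
  have h1 : Ideal.span {z} ≤ Q := (Ideal.span_singleton_le_iff_mem Q).2 hzQ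
  have h2 : Ideal.absNorm Q ∣ Ideal.absNorm (Ideal.span {z}) := Ideal.absNorm_dvd_absNorm_of_le h1
  have h3 : Ideal.absNorm (Ideal.span {z}) ≠ 0 := by
    intro h
    rw [Ideal.absNorm_eq_zero_iff, Ideal.span_singleton_eq_bot] at h
    exact hz h
  exact_mod_cast Nat.le_of_dvd (Nat.pos_of_ne_zero h3) h2

theorem emb_nonempty : Nonempty (K →ₐ[ℚ] ℂ) := by
  rw [← Fintype.card_pos_iff, card_emb]
  exact Module.finrank_pos


theorem norm_emb_pos (s : K →ₐ[ℚ] ℂ) (x : 𝓞 K) (hx : x ≠ 0) : 0 < ‖s (x : K)‖ := by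
  rw [norm_pos_iff]
  intro h
  have h2 : (x : K) = 0 := (map_eq_zero_iff s s.injective).1 h
  exact hx (by exact_mod_cast h2)

/-- a nonzero element of `Q` is not small at all the places -/
theorem not_small (Q : Ideal (𝓞 K)) (z : 𝓞 K) (hz : z ≠ 0) (hzQ : z ∈ Q)
    (h : ∀ s : K →ₐ[ℚ] ℂ, ‖s (z : K)‖ < sz K Q) : False := by
  have h1 := absNorm_le_of_mem K Q z hz hzQ
  rw [absNorm_eq K z, ← sz_pow K Q, ← card_emb K] at h1
  have h2 : ∏ s : K →ₐ[ℚ] ℂ, ‖s (z : K)‖ < ∏ _s : K →ₐ[ℚ] ℂ, sz K Q := by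
    apply Finset.prod_lt_prod_of_nonempty
    · intro s _
      exact norm_emb_pos K s z hz
    · intro s _
      exact h s
    · have := emb_nonempty K
      exact Finset.univ_nonempty
  rw [Finset.prod_const, Finset.card_univ] at h2
  exact absurd h1 (not_le.2 h2)

theorem floor_eq_abs_lt (s t δ : ℝ) (hδ : 0 < δ) (hs : 0 ≤ s) (ht : 0 ≤ t)
    (h : ⌊s / δ⌋₊ = ⌊t / δ⌋₊) : |s - t| < δ := by
  have h1 := Nat.floor_le (div_nonneg hs hδ.le)
  have h2 := Nat.lt_floor_add_one (s / δ)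
  have h3 := Nat.floor_le (div_nonneg ht hδ.le)
  have h4 := Nat.lt_floor_add_one (t / δ)
  rw [h] at h1 h2
  have h5 : |s / δ - t / δ| < 1 := by
    rw [abs_lt]
    constructor <;> linarith
  rw [← sub_div, abs_div, abs_of_pos hδ, div_lt_one hδ] at h5
  exact h5

/-- sharper form, with `+ 1` -/
theorem cells1 (Q : Ideal (𝓞 K)) (hQ : Q ≠ ⊥) (S : Finset (𝓞 K))
    (hS : ∀ x ∈ S, ∀ y ∈ S, x - y ∈ Q) (a A : (K →ₐ[ℚ] ℂ) → ℝ) (hA : ∀ s, 0 ≤ A s)
    (h : ∀ x ∈ S, ∀ s : K →ₐ[ℚ] ℂ, a s ≤ kap K s (x : K) ∧ kap K s (x : K) ≤ a s + A s) :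
    (S.card : ℝ) ≤ ∏ s : K →ₐ[ℚ] ℂ, (A s / sz K Q + 1) := by
  classical
  have hs : 0 < sz K Q := lt_of_lt_of_le one_pos (one_le_sz K Q hQ)
  let f : 𝓞 K → (K →ₐ[ℚ] ℂ) → ℕ := fun x s => ⌊(kap K s (x : K) - a s) / sz K Q⌋₊
  let T : Finset ((K →ₐ[ℚ] ℂ) → ℕ) := Fintype.piFinset fun s =>
    Finset.range (⌊A s / sz K Q⌋₊ + 1)
  have hmaps : ∀ x ∈ S, f x ∈ T := by
    intro x hx
    rw [Fintype.mem_piFinset]
    intro s
    obtain ⟨h1, h2⟩ := h x hx s
    rw [Finset.mem_range]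
    apply Nat.lt_succ_of_le
    apply Nat.floor_le_floor
    apply div_le_div_of_nonneg_right _ hs.le
    linarith
  have hinj : Set.InjOn f (S : Set (𝓞 K)) := by
    intro x hx y hy hxy
    by_contra hne
    have hz : x - y ≠ 0 := sub_ne_zero.2 hne
    refine not_small K Q (x - y) hz (hS x hx y hy) ?_
    intro s
    apply norm_lt_of_kap
    intro s'
    obtain ⟨h1, h2⟩ := h x hx s'
    obtain ⟨h1', h2'⟩ := h y hy s'
    have g1 := floor_eq_abs_lt _ _ (sz K Q) hs (sub_nonneg.2 h1) (sub_nonneg.2 h1')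
      (congrFun hxy s')
    have e3 : ((x - y : 𝓞 K) : K) = (x : K) - (y : K) := by push_cast; rfl
    rw [e3, kap_sub]
    have e : kap K s' (x : K) - kap K s' (y : K) =
      (kap K s' (x : K) - a s') - (kap K s' (y : K) - a s') := by ring
    rw [e]
    exact g1
  have hcard : S.card ≤ T.card := Finset.card_le_card_of_injOn f hmaps hinj
  have hT : (T.card : ℝ) = ∏ s : K →ₐ[ℚ] ℂ, ((⌊A s / sz K Q⌋₊ + 1 : ℕ) : ℝ) := by
    rw [Fintype.card_piFinset]
    push_cast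
    apply Finset.prod_congr rfl
    intro w _
    rw [Finset.card_range]
    push_cast
    ring
  calc (S.card : ℝ) ≤ (T.card : ℝ) := by exact_mod_cast hcard
    _ ≤ _ := by
      rw [hT]
      apply Finset.prod_le_prod
      · intro s _
        positivity
      · intro s _
        have j1 := Nat.floor_le (div_nonneg (hA s) hs.le)
        push_cast
        linarith

theorem cells (Q : Ideal (𝓞 K)) (hQ : Q ≠ ⊥) (S : Finset (𝓞 K))
    (hS : ∀ x ∈ S, ∀ y ∈ S, x - y ∈ Q) (a A : (K →ₐ[ℚ] ℂ) → ℝ) (hA : ∀ s, 0 ≤ A s)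
    (h : ∀ x ∈ S, ∀ s : K →ₐ[ℚ] ℂ, a s ≤ kap K s (x : K) ∧ kap K s (x : K) ≤ a s + A s) :
    (S.card : ℝ) ≤ ∏ s : K →ₐ[ℚ] ℂ, (A s / sz K Q + 2) := by
  have hs : 0 < sz K Q := lt_of_lt_of_le one_pos (one_le_sz K Q hQ)
  refine (cells1 K Q hQ S hS a A hA h).trans ?_
  apply Finset.prod_le_prod
  · intro s _
    have := div_nonneg (hA s) hs.le
    linarith
  · intro s _
    linarith

theorem cells_cube (Q : Ideal (𝓞 K)) (hQ : Q ≠ ⊥) (H : ℝ) (hH : 0 ≤ H) (S : Finset (𝓞 K))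
    (hS : ∀ x ∈ S, ∀ y ∈ S, x - y ∈ Q) (h : ∀ x ∈ S, Cube K H (x : K)) :
    (S.card : ℝ) ≤ (2 * H / sz K Q + 2) ^ Module.finrank ℚ K := by
  have h1 := cells K Q hQ S hS (fun _ => -H) (fun _ => 2 * H) (fun _ => by positivity) (by
      intro x hx s
      have h3 := abs_le.1 (h x hx s)
      exact ⟨h3.1, by linarith [h3.2]⟩)
  rw [Finset.prod_const, Finset.card_univ, card_emb] at h1
  exact h1

theorem sz_top : sz K ⊤ = 1 := by
  unfold sz
  rw [Ideal.absNorm_top]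
  simp

theorem V_up : ∃ C : ℝ, 0 < C ∧ ∀ H : ℝ, 1 ≤ H →
    ((V K H).card : ℝ) ≤ C * H ^ Module.finrank ℚ K := by
  refine ⟨4 ^ Module.finrank ℚ K, by positivity, ?_⟩
  intro H hH
  have h1 := cells_cube K ⊤ top_ne_bot H (by linarith) (V K H) (fun _ _ _ _ => Submodule.mem_top)
    (fun x hx => (mem_V K H x).1 hx)
  rw [sz_top, div_one] at h1
  rw [← mul_pow]
  refine h1.trans (pow_le_pow_left₀ (by linarith) (by linarith) _)

theorem div_up : ∃ C : ℝ, 0 < C ∧ ∀ Q : Ideal (𝓞 K), Q ≠ ⊥ → ∀ H : ℝ, 1 ≤ H →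
    ((VI K H Q).card : ℝ) ≤ 1 + C * H ^ Module.finrank ℚ K / Ideal.absNorm Q := by
  refine ⟨4 ^ Module.finrank ℚ K, by positivity, ?_⟩
  intro Q hQ H hH
  have hs1 := one_le_sz K Q hQ
  have hs : 0 < sz K Q := lt_of_lt_of_le one_pos hs1
  have hrest : 0 ≤ (4 : ℝ) ^ Module.finrank ℚ K * H ^ Module.finrank ℚ K / Ideal.absNorm Q := by
    positivity
  by_cases hz : ∃ z ∈ VI K H Q, z ≠ 0
  · obtain ⟨z, hz1, hz2⟩ := hz
    rw [mem_VI] at hz1
    have hle : sz K Q ≤ H := by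
      by_contra hlt
      push Not at hlt
      refine not_small K Q z hz2 hz1.2 ?_
      intro s
      exact lt_of_le_of_lt (norm_le_of_kap K H s _ hz1.1) hlt
    have h1 := cells_cube K Q hQ H (by linarith) (VI K H Q)
      (fun x hx y hy => Q.sub_mem ((mem_VI K H Q x).1 hx).2 ((mem_VI K H Q y).1 hy).2)
      (fun x hx => ((mem_VI K H Q x).1 hx).1)
    have h2 : 2 * H / sz K Q + 2 ≤ 4 * H / sz K Q := by
      rw [div_add' _ _ _ hs.ne', div_le_div_iff_of_pos_right hs]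
      linarith
    have h3 : (2 * H / sz K Q + 2) ^ Module.finrank ℚ K ≤ (4 * H / sz K Q) ^ Module.finrank ℚ K :=
      pow_le_pow_left₀ (by positivity) h2 _
    rw [div_pow, mul_pow, sz_pow] at h3
    linarith
  · push Not at hz
    have h1 : VI K H Q ⊆ {0} := by
      intro z hz3
      rw [Finset.mem_singleton]
      exact hz z hz3
    have h2 := Finset.card_le_card h1
    rw [Finset.card_singleton] at h2
    have h3 : ((VI K H Q).card : ℝ) ≤ 1 := by exact_mod_cast h2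
    linarith

end

end Pool.Agent.CMD
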