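import Pool.Agent.CMD.Defs

/-!
CMD / Cheb: Chebyshev's upper bound and a partial summation.
-/

set_option autoImplicit false

namespace Pool.Agent.CMD

open NumberField Finset

theorem cheb1 (X : ℕ) : ∑ p ∈ Icc 1 X, (if p.Prime then Real.log p else 0) ≤ Real.log 4 * X := by
  have h1 := Chebyshev.theta_le_log4_mul_x (x := (X : ℝ)) (Nat.cast_nonneg X)
  refine le_trans (le_of_eq ?_) h1
  rw [Chebyshev.theta, Nat.floor_natCast, Finset.sum_filter]
  rfl

/-- the weight -/
private noncomputable def aw (d n : ℕ) : ℝ := 1 / ((n : ℝ) ^ (1 / (d : ℝ))) ^ (d - 1)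

private theorem aw_anti (d : ℕ) {m n : ℕ} (hm : 1 ≤ m) (hmn : m ≤ n) : aw d n ≤ aw d m := by
  unfold aw
  have hm' : (0 : ℝ) < m := by exact_mod_cast hm
  have h1 : (0 : ℝ) < (m : ℝ) ^ (1 / (d : ℝ)) := Real.rpow_pos_of_pos hm' _
  apply one_div_le_one_div_of_le (by positivity)
  apply pow_le_pow_left₀ h1.le
  apply Real.rpow_le_rpow hm'.le (by exact_mod_cast hmn) (by positivity)

private theorem sum_aw (d : ℕ) (hd : 2 ≤ d) (X : ℕ) :
    ∑ n ∈ Icc 1 X, aw d n ≤ d * (X : ℝ) ^ (1 / (d : ℝ)) := by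
  induction X with
  | zero =>
    simp only [Finset.Icc_eq_empty_of_lt (show 0 < 1 by norm_num), Finset.sum_empty]
    positivity
  | succ X ih =>
    rw [Finset.sum_Icc_succ_top (by omega)]
    have hd0 : (d : ℝ) ≠ 0 := by positivity
    set x : ℝ := (X : ℝ) ^ (1 / (d : ℝ)) with hx
    set y : ℝ := ((X + 1 : ℕ) : ℝ) ^ (1 / (d : ℝ)) with hy
    have hx0 : 0 ≤ x := Real.rpow_nonneg (Nat.cast_nonneg _) _
    have hy0 : 0 < y := Real.rpow_pos_of_pos (by positivity) _
    have hxd : x ^ d = X := by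
      rw [hx, ← Real.rpow_natCast, ← Real.rpow_mul (Nat.cast_nonneg _), one_div,
        inv_mul_cancel₀ hd0, Real.rpow_one]
    have hyd : y ^ d = X + 1 := by
      rw [hy, ← Real.rpow_natCast, ← Real.rpow_mul (Nat.cast_nonneg _), one_div,
        inv_mul_cancel₀ hd0, Real.rpow_one]
      push_cast
      ring
    have h1 : 1 + (d : ℝ) * (x / y - 1) ≤ (1 + (x / y - 1)) ^ d := by
      apply one_add_mul_le_pow
      have : 0 ≤ x / y := by positivity
      linarith
    have h2 : (1 + (x / y - 1)) ^ d = X / (X + 1) := by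
      have e0 : (1 + (x / y - 1)) = x / y := by ring
      rw [e0, div_pow, hxd, hyd]
    rw [h2] at h1
    have h3 : y ^ d = y ^ (d - 1) * y := by
      rw [← pow_succ]
      congr 1
      omega
    have h4 : (aw d (X + 1)) = 1 / y ^ (d - 1) := rfl
    have hX1 : (0 : ℝ) < (X : ℝ) + 1 := by positivity
    have h5 : aw d (X + 1) ≤ d * (y - x) := by
      rw [h4, div_le_iff₀ (by positivity)]
      have e1 : (d : ℝ) * (y - x) * y ^ (d - 1) = d * (1 - x / y) * (X + 1) := by
        rw [← hyd, h3]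
        field_simp
      rw [e1]
      have e2 : (1 + (d : ℝ) * (x / y - 1)) * (X + 1) ≤ X / (X + 1) * (X + 1) :=
        mul_le_mul_of_nonneg_right h1 hX1.le
      rw [div_mul_cancel₀ _ hX1.ne'] at e2
      nlinarith
    linarith

theorem cheb2 (d : ℕ) (hd : 2 ≤ d) : ∃ C : ℝ, 0 < C ∧ ∀ X : ℕ,
    ∑ p ∈ Icc 1 X, (if p.Prime then Real.log p / ((p : ℝ) ^ (1 / (d : ℝ))) ^ (d - 1) else 0) ≤
      C * (X : ℝ) ^ (1 / (d : ℝ)) := by
  have hl4 : 0 < Real.log 4 := Real.log_pos (by norm_num)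
  refine ⟨Real.log 4 * d, by positivity, fun X => ?_⟩
  set t : ℕ → ℝ := fun p => if p.Prime then Real.log p else 0 with ht
  have h0 : ∀ p : ℕ, (if p.Prime then Real.log p / ((p : ℝ) ^ (1 / (d : ℝ))) ^ (d - 1) else 0) =
      t p * aw d p := by
    intro p
    simp only [ht, aw]
    split_ifs
    · rw [mul_one_div]
    · rw [zero_mul]
  have key : ∀ X : ℕ, ∑ p ∈ Icc 1 X, t p * aw d p ≤ Real.log 4 * ∑ n ∈ Icc 1 X, aw d n -
      (Real.log 4 * X - ∑ p ∈ Icc 1 X, t p) * aw d X := by
    intro X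
    induction X with
    | zero => simp
    | succ X ih =>
      rw [Finset.sum_Icc_succ_top (by omega), Finset.sum_Icc_succ_top (by omega),
        Finset.sum_Icc_succ_top (by omega)]
      have h1 : 0 ≤ Real.log 4 * X - ∑ p ∈ Icc 1 X, t p := by
        have := cheb1 X
        simp only [ht]
        linarith
      have h2 : 0 ≤ (Real.log 4 * X - ∑ p ∈ Icc 1 X, t p) * (aw d X - aw d (X + 1)) := by
        rcases Nat.eq_zero_or_pos X with hX | hX
        · subst hX
          simp
        · exact mul_nonneg h1 (sub_nonneg.2 (aw_anti d hX (Nat.le_succ X)))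
      push_cast
      nlinarith
  rw [Finset.sum_congr rfl fun p _ => h0 p]
  have h1 : 0 ≤ (Real.log 4 * X - ∑ p ∈ Icc 1 X, t p) * aw d X := by
    apply mul_nonneg
    · have := cheb1 X
      simp only [ht]
      linarith
    · unfold aw
      positivity
  have h2 := key X
  have h3 := mul_le_mul_of_nonneg_left (sum_aw d hd X) hl4.le
  linarith

end Pool.Agent.CMD
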