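import Pool.Agent.CMD.Bas
import Pool.Agent.CYD.Cnt
import Pool.Agent.CYD.Cls
import Pool.Agent.CYD.Ent

/-!
CMD: the number `DP` of pairs (point `x`, distance from `x` divisible by `I * e I * P`):
the lower bounds (classes mod `I * P`) and the upper bound on average over `P` (Dedekind).
-/

set_option autoImplicit false

namespace Pool.Agent.CMD

open NumberField Finset

open Pool.Agent.CYD (hh jensen cls cnt)

variable {K : Type*} [Field K] [NumberField K] (e : 𝓞 K ≃+* 𝓞 K)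

open Classical in
/-- pairs `(x, v)`, `v ∈ D_x(S)` divisible by `I * e I * P` -/
noncomputable def DP (I : Ideal (𝓞 K)) (S : Finset (𝓞 K)) (P : Ideal (𝓞 K)) : ℕ :=
  ∑ x ∈ S, ((D e S x).filter (fun v => v ∈ I * cI e I * P)).card

theorem DP_sum (I : Ideal (𝓞 K)) (hI : I ≠ ⊥) (M : ℝ) (S : Finset (𝓞 K))
    (hS : ∀ x ∈ S, ∀ y ∈ S, x - y ∈ I)
    (hM : ∀ x ∈ S, ∀ y ∈ S, ((Ideal.absNorm (Ideal.span {x - y}) : ℕ) : ℝ) ≤ M)
    (T : Finset (Ideal (𝓞 K))) (hT : ∀ P ∈ T, P.IsPrime ∧ P ≠ ⊥) :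
    ∑ P ∈ T, Real.log (Ideal.absNorm P) * (DP e I S P : ℝ) ≤
      (W e S : ℝ) * (2 * Real.log M - 2 * Real.log (Ideal.absNorm I)) := by
  classical
  have hcI : I * cI e I ≠ ⊥ := by
    intro h
    have h1 : Ideal.absNorm (I * cI e I) = 0 := by rw [h]; exact Ideal.absNorm_bot
    rw [map_mul, absNorm_cI] at h1
    exact hI (Ideal.absNorm_eq_zero_iff.1 (mul_self_eq_zero.1 h1))
  have hI1 : (Ideal.absNorm I : ℝ) ≠ 0 :=
    Nat.cast_ne_zero.2 (fun h => hI (Ideal.absNorm_eq_zero_iff.1 h))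
  have h1 : ∀ P, (DP e I S P : ℝ) =
      ∑ x ∈ S, ∑ v ∈ D e S x, if v ∈ I * cI e I * P then (1 : ℝ) else 0 := by
    intro P
    unfold DP
    push_cast
    apply Finset.sum_congr rfl
    intro x hx
    rw [Finset.card_filter]
    push_cast
    rfl
  have h2 : ∑ P ∈ T, Real.log (Ideal.absNorm P) * (DP e I S P : ℝ) =
      ∑ x ∈ S, ∑ v ∈ D e S x, ∑ P ∈ T.filter (fun P => v ∈ I * cI e I * P),
        Real.log (Ideal.absNorm P) := by
    simp_rw [h1, Finset.mul_sum]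
    rw [Finset.sum_comm]
    apply Finset.sum_congr rfl
    intro x hx
    rw [Finset.sum_comm]
    apply Finset.sum_congr rfl
    intro v hv
    rw [Finset.sum_filter]
    apply Finset.sum_congr rfl
    intro P hP
    split_ifs <;> simp
  rw [h2]
  have h3 : ∀ x ∈ S, ∀ v ∈ D e S x, ∑ P ∈ T.filter (fun P => v ∈ I * cI e I * P),
      Real.log (Ideal.absNorm P) ≤ 2 * Real.log M - 2 * Real.log (Ideal.absNorm I) := by
    intro x hx v hv
    unfold D at hv
    rw [Finset.mem_image] at hv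
    obtain ⟨y, hy, rfl⟩ := hv
    rw [Finset.mem_erase] at hy
    have hxy : x - y ≠ 0 := sub_ne_zero.2 (Ne.symm hy.1)
    have h4 := cnt K (I * cI e I) hcI (q e (x - y)) (q_ne_zero e _ hxy)
      (q_mem_one e I _ (hS x hx y hy.2)) (T.filter (fun P => q e (x - y) ∈ I * cI e I * P))
      (fun P hP => hT P (Finset.mem_filter.1 hP).1) (fun P hP => (Finset.mem_filter.1 hP).2)
    have h5 : (0 : ℝ) < (Ideal.absNorm (Ideal.span {x - y}) : ℕ) := by
      have : Ideal.absNorm (Ideal.span {x - y}) ≠ 0 := by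
        rw [Ne, Ideal.absNorm_eq_zero_iff, Ideal.span_singleton_eq_bot]
        exact hxy
      exact_mod_cast Nat.pos_of_ne_zero this
    have h6 := Real.log_le_log h5 (hM x hx y hy.2)
    rw [absNorm_q, map_mul, absNorm_cI, Nat.cast_pow, Nat.cast_mul, Real.log_pow,
      Real.log_mul hI1 hI1] at h4
    push_cast at h4
    linarith
  calc ∑ x ∈ S, ∑ v ∈ D e S x, ∑ P ∈ T.filter (fun P => v ∈ I * cI e I * P),
        Real.log (Ideal.absNorm P)
      ≤ ∑ x ∈ S, ∑ v ∈ D e S x, (2 * Real.log M - 2 * Real.log (Ideal.absNorm I)) :=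
        Finset.sum_le_sum (fun x hx => Finset.sum_le_sum (fun v hv => h3 x hx v hv))
    _ = (W e S : ℝ) * (2 * Real.log M - 2 * Real.log (Ideal.absNorm I)) := by
      unfold W
      push_cast
      simp only [Finset.sum_const, nsmul_eq_mul, Finset.sum_mul]

theorem DP_low1 (I P : Ideal (𝓞 K)) (hI : I ≠ ⊥) (hP : P ≠ ⊥) (S : Finset (𝓞 K))
    (hS : ∀ x ∈ S, ∀ y ∈ S, x - y ∈ I) : S.card - Ideal.absNorm P ≤ DP e I S P := by
  classical
  obtain ⟨J, hJc, hJ, hdis, hcov⟩ := cls K I P hI hP S hS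
  have h1 := W_classes e I P S J hJ hdis hcov
  have h2 := sum_card_classes S J (fun A hA => (hJ A hA).1) hdis hcov
  have h3 : ∑ A ∈ J, A.card ≤ ∑ A ∈ J, (W e A + 1) :=
    Finset.sum_le_sum (fun A _ => by have := W_lower e A; omega)
  rw [Finset.sum_add_distrib, Finset.sum_const, smul_eq_mul, mul_one, h2] at h3
  have h4 : ∑ A ∈ J, W e A ≤ DP e I S P := by unfold DP; convert h1
  omega

theorem DP_low2 (I P : Ideal (𝓞 K)) (hI : I ≠ ⊥) (hP : P ≠ ⊥) (p : ℕ)
    (hp : Ideal.absNorm P = p) (S : Finset (𝓞 K))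
    (hS : ∀ x ∈ S, ∀ y ∈ S, x - y ∈ I) (hpn : p < S.card) (c B' : ℝ) (hc : 0 ≤ c)
    (IH : ∀ A : Finset (𝓞 K), A ⊆ S → 2 ≤ A.card → (∀ x ∈ A, ∀ y ∈ A, x - y ∈ I * P) →
      1 ≤ B' - Real.log A.card ∧ hh c B' A.card ≤ W e A) :
    p * hh c B' ((S.card : ℝ) / p) - c * p ≤ DP e I S P := by
  classical
  obtain ⟨J, hJc, hJ, hdis, hcov⟩ := cls K I P hI hP S hS
  have h1 := W_classes e I P S J hJ hdis hcov
  have h2 := sum_card_classes S J (fun A hA => (hJ A hA).1) hdis hcov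
  have h4 : ∑ A ∈ J, W e A ≤ DP e I S P := by unfold DP; convert h1
  rw [hp] at hJc
  have h5 : ∃ A ∈ J, 2 ≤ A.card := by
    by_contra hcon
    push Not at hcon
    have h6 : ∑ A ∈ J, A.card ≤ ∑ _A ∈ J, 1 :=
      Finset.sum_le_sum (fun A hA => by have := hcon A hA; omega)
    rw [h2] at h6
    simp only [Finset.sum_const, smul_eq_mul, mul_one] at h6
    omega
  obtain ⟨A₀, hA₀, hA₀2⟩ := h5
  have hB1 : 1 ≤ B' := by
    have h6 := (IH A₀ (hJ A₀ hA₀).1 hA₀2 (hJ A₀ hA₀).2.2).1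
    have h7 : 0 ≤ Real.log (A₀.card : ℝ) := Real.log_natCast_nonneg _
    linarith
  have hcard : ∀ A ∈ J, 1 ≤ A.card := fun A hA => Finset.card_pos.2 (hJ A hA).2.1
  have hBJ : ∀ A ∈ J, 1 ≤ B' - Real.log (A.card : ℝ) := by
    intro A hA
    rcases (hcard A hA).eq_or_lt with h | h
    · rw [← h]
      simpa using hB1
    · exact (IH A (hJ A hA).1 h (hJ A hA).2.2).1
  have h6 := jensen c B' hc p J ⟨A₀, hA₀⟩ hJc (fun A => A.card) hcard hBJ
  have h7 : ∀ A ∈ J, hh c B' (A.card : ℝ) ≤ W e A + c := by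
    intro A hA
    rcases (hcard A hA).eq_or_lt with h | h
    · rw [← h]
      have h9 : hh c B' ((1 : ℕ) : ℝ) = c / B' := by
        unfold hh
        rw [Nat.cast_one, Real.log_one, sub_zero, Real.sqrt_mul_self (by linarith)]
        ring
      rw [h9]
      have h8 : c / B' ≤ c := div_le_self hc hB1
      have h10 : (0 : ℝ) ≤ W e A := Nat.cast_nonneg _
      linarith
    · have := (IH A (hJ A hA).1 h (hJ A hA).2.2).2
      linarith
  have h8 : (∑ A ∈ J, (A.card : ℝ)) = S.card := by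
    rw [← h2]
    push_cast
    rfl
  rw [h8] at h6
  have h9 := Finset.sum_le_sum h7
  rw [Finset.sum_add_distrib, Finset.sum_const, nsmul_eq_mul] at h9
  have h10 : (∑ A ∈ J, (W e A : ℝ)) ≤ DP e I S P := by exact_mod_cast h4
  have h11 : (J.card : ℝ) * c ≤ c * p := by
    rw [mul_comm]
    gcongr
  linarith

end Pool.Agent.CMD
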