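import Mathlib

/-!
CMD: Mertens' theorem for the prime ideals of prime norm of a number field, by counting in
cubes. Definitions.
-/

set_option autoImplicit false

namespace Pool.Agent.CMD

open NumberField Finset

variable (K : Type*) [Field K] [NumberField K]

/-- coordinate of `x` at the embedding `s` -/
noncomputable def kap (s : K →ₐ[ℚ] ℂ) (x : K) : ℝ := (s x).re + (s x).im

theorem kap_add (s : K →ₐ[ℚ] ℂ) (x y : K) : kap K s (x + y) = kap K s x + kap K s y := by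
  simp only [kap, map_add, Complex.add_re, Complex.add_im]
  ring

theorem kap_sub (s : K →ₐ[ℚ] ℂ) (x y : K) : kap K s (x - y) = kap K s x - kap K s y := by
  simp only [kap, map_sub, Complex.sub_re, Complex.sub_im]
  ring

theorem kap_neg (s : K →ₐ[ℚ] ℂ) (x : K) : kap K s (-x) = -kap K s x := by
  simp only [kap, map_neg, Complex.neg_re, Complex.neg_im]
  ring

theorem abs_kap_le (s : K →ₐ[ℚ] ℂ) (x : K) : |kap K s x| ≤ 2 * ‖s x‖ := by
  unfold kap
  have h1 := abs_add_le (s x).re (s x).im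
  have h2 := Complex.abs_re_le_norm (s x)
  have h3 := Complex.abs_im_le_norm (s x)
  linarith

/-- the conjugate embedding -/
noncomputable def cs (s : K →ₐ[ℚ] ℂ) : K →ₐ[ℚ] ℂ :=
  ((Complex.conjAe : ℂ →ₐ[ℝ] ℂ).restrictScalars ℚ).comp s

theorem kap_cs (s : K →ₐ[ℚ] ℂ) (x : K) : kap K (cs K s) x = (s x).re - (s x).im := by
  simp [kap, cs, sub_eq_add_neg]

theorem normSq_eq (s : K →ₐ[ℚ] ℂ) (x : K) :
    ‖s x‖ ^ 2 = (kap K s x ^ 2 + kap K (cs K s) x ^ 2) / 2 := by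
  rw [kap_cs, kap, Complex.sq_norm, Complex.normSq_apply]
  ring

theorem norm_le_of_kap (H : ℝ) (s : K →ₐ[ℚ] ℂ) (x : K) (h : ∀ s', |kap K s' x| ≤ H) :
    ‖s x‖ ≤ H := by
  have hH : 0 ≤ H := (abs_nonneg _).trans (h s)
  have h1 : kap K s x ^ 2 ≤ H ^ 2 := sq_le_sq' (by linarith [abs_le.1 (h s)])
    (abs_le.1 (h s)).2
  have h2 : kap K (cs K s) x ^ 2 ≤ H ^ 2 := sq_le_sq' (by linarith [abs_le.1 (h (cs K s))])
    (abs_le.1 (h (cs K s))).2
  have h3 := normSq_eq K s x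
  exact abs_le_of_sq_le_sq' (by linarith) hH |>.2

theorem norm_lt_of_kap (H : ℝ) (s : K →ₐ[ℚ] ℂ) (x : K) (h : ∀ s', |kap K s' x| < H) :
    ‖s x‖ < H := by
  have hH : 0 < H := (abs_nonneg _).trans_lt (h s)
  have h1 : kap K s x ^ 2 < H ^ 2 := sq_lt_sq' (by linarith [abs_lt.1 (h s)])
    (abs_lt.1 (h s)).2
  have h2 : kap K (cs K s) x ^ 2 < H ^ 2 := sq_lt_sq' (by linarith [abs_lt.1 (h (cs K s))])
    (abs_lt.1 (h (cs K s))).2
  have h3 := normSq_eq K s x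
  exact lt_of_pow_lt_pow_left₀ 2 hH.le (by linarith)

/-- all coordinates at most `H` in absolute value -/
def Cube (H : ℝ) (x : K) : Prop := ∀ s : K →ₐ[ℚ] ℂ, |kap K s x| ≤ H

theorem cube_finite (H : ℝ) : {x : 𝓞 K | Cube K H (x : K)}.Finite := by
  have h1 := NumberField.Embeddings.finite_of_norm_le K ℂ H
  have h2 : {x : 𝓞 K | Cube K H (x : K)} ⊆
      (fun x : 𝓞 K => (x : K)) ⁻¹' {x : K | IsIntegral ℤ x ∧ ∀ φ : K →+* ℂ, ‖φ x‖ ≤ H} := by
    intro x hx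
    refine ⟨RingOfIntegers.isIntegral_coe x, fun φ => ?_⟩
    exact norm_le_of_kap K H φ.toRatAlgHom (x : K) hx
  refine Set.Finite.subset (Set.Finite.preimage ?_ h1) h2
  exact RingOfIntegers.coe_injective.injOn

/-- the integers of `K` in the cube of side `2 H` -/
noncomputable def V (H : ℝ) : Finset (𝓞 K) := (cube_finite K H).toFinset

theorem mem_V (H : ℝ) (x : 𝓞 K) : x ∈ V K H ↔ Cube K H (x : K) := by
  simp [V]

/-- the integers of `K` in the cube which belong to the ideal `Q` -/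
noncomputable def VI (H : ℝ) (Q : Ideal (𝓞 K)) : Finset (𝓞 K) := by
  classical
  exact (V K H).filter (fun x => x ∈ Q)

theorem mem_VI (H : ℝ) (Q : Ideal (𝓞 K)) (x : 𝓞 K) :
    x ∈ VI K H Q ↔ Cube K H (x : K) ∧ x ∈ Q := by
  classical
  simp [VI, mem_V]

/-- the size `N(Q) ^ (1/d)` of an ideal -/
noncomputable def sz (Q : Ideal (𝓞 K)) : ℝ :=
  (Ideal.absNorm Q : ℝ) ^ (1 / (Module.finrank ℚ K : ℝ))

/-- nonzero prime ideals of norm at most `X` -/
noncomputable def PP (X : ℕ) : Finset (Ideal (𝓞 K)) := by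
  classical
  exact (Ideal.finite_setOfPred_absNorm_le (S := 𝓞 K) X).toFinset.filter
    (fun P => P.IsPrime ∧ P ≠ ⊥)

theorem mem_PP (X : ℕ) (P : Ideal (𝓞 K)) :
    P ∈ PP K X ↔ Ideal.absNorm P ≤ X ∧ P.IsPrime ∧ P ≠ ⊥ := by
  classical
  simp [PP]

/-- nonzero prime ideals of norm `n` -/
noncomputable def PN (n : ℕ) : Finset (Ideal (𝓞 K)) := by
  classical
  exact (PP K n).filter (fun P => Ideal.absNorm P = n)

theorem mem_PN (n : ℕ) (P : Ideal (𝓞 K)) :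
    P ∈ PN K n ↔ P.IsPrime ∧ P ≠ ⊥ ∧ Ideal.absNorm P = n := by
  classical
  unfold PN
  rw [Finset.mem_filter, mem_PP]
  constructor
  · rintro ⟨⟨-, h1, h2⟩, h3⟩
    exact ⟨h1, h2, h3⟩
  · rintro ⟨h1, h2, h3⟩
    exact ⟨⟨h3.le, h1, h2⟩, h3⟩

/-- weight `(r/2) log p` on the primes `p`, `r` the number of prime ideals of norm `p` -/
noncomputable def wK (p : ℕ) : ℝ :=
  if p.Prime then ((PN K p).card : ℝ) / 2 * Real.log p else 0

theorem sz_pow (Q : Ideal (𝓞 K)) : sz K Q ^ Module.finrank ℚ K = Ideal.absNorm Q := by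
  unfold sz
  have h : (Module.finrank ℚ K : ℝ) ≠ 0 := by
    exact_mod_cast (Module.finrank_pos (R := ℚ) (M := K)).ne'
  rw [← Real.rpow_natCast, ← Real.rpow_mul (Nat.cast_nonneg _), one_div, inv_mul_cancel₀ h,
    Real.rpow_one]

theorem one_le_sz (Q : Ideal (𝓞 K)) (hQ : Q ≠ ⊥) : 1 ≤ sz K Q := by
  unfold sz
  apply Real.one_le_rpow
  · exact_mod_cast Nat.one_le_iff_ne_zero.2 (fun h => hQ (Ideal.absNorm_eq_zero_iff.1 h))
  · positivity

theorem card_emb : Fintype.card (K →ₐ[ℚ] ℂ) = Module.finrank ℚ K := AlgHom.card ℚ K ℂ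

/-- the norm as a product over the embeddings -/
theorem absNorm_eq (z : 𝓞 K) :
    ((Ideal.absNorm (Ideal.span {z}) : ℕ) : ℝ) = ∏ s : K →ₐ[ℚ] ℂ, ‖s (z : K)‖ := by
  have h1 := Algebra.norm_eq_prod_embeddings ℚ ℂ (z : K)
  rw [← norm_prod, ← h1, Ideal.absNorm_span_singleton, Nat.cast_natAbs, ← Algebra.coe_norm_int]
  simp

theorem absNorm_le (H : ℝ) (z : 𝓞 K) (hz : Cube K H (z : K)) :
    ((Ideal.absNorm (Ideal.span {z}) : ℕ) : ℝ) ≤ H ^ Module.finrank ℚ K := by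
  rw [absNorm_eq, ← card_emb K]
  calc ∏ s : K →ₐ[ℚ] ℂ, ‖s (z : K)‖ ≤ ∏ _s : K →ₐ[ℚ] ℂ, H :=
        Finset.prod_le_prod (fun s _ => norm_nonneg _) (fun s _ => norm_le_of_kap K H s _ hz)
    _ = H ^ Fintype.card (K →ₐ[ℚ] ℂ) := by simp

end Pool.Agent.CMD
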