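import Pool.Agent.CMD.Defs

set_option autoImplicit false

namespace Pool.Agent.CMD

open NumberField Finset

section
variable (K : Type*) [Field K] [NumberField K]

/-- sum of the sizes of all conjugates of an integral basis, plus one -/
noncomputable def bsum : ℝ :=
  ∑ j : Module.Free.ChooseBasisIndex ℤ (𝓞 K), ∑ φ : K →+* ℂ,
    ‖φ ((RingOfIntegers.basis K j : 𝓞 K) : K)‖ + 1

theorem one_le_bsum : 1 ≤ bsum K := by
  unfold bsum
  have : 0 ≤ ∑ j : Module.Free.ChooseBasisIndex ℤ (𝓞 K), ∑ φ : K →+* ℂ,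
    ‖φ ((RingOfIntegers.basis K j : 𝓞 K) : K)‖ :=
    Finset.sum_nonneg fun j _ => Finset.sum_nonneg fun φ _ => norm_nonneg _
  linarith

theorem comb_bound (φ : K →+* ℂ) (T : ℝ) (hT : 0 ≤ T)
    (q : Module.Free.ChooseBasisIndex ℤ (𝓞 K) → ℚ) (hq : ∀ j, |(q j : ℝ)| ≤ T) :
    ‖φ (∑ j, (q j) • ((RingOfIntegers.basis K j : 𝓞 K) : K))‖ ≤ bsum K * T := by
  rw [map_sum]
  have h1 : ∀ j, ‖φ ((q j) • ((RingOfIntegers.basis K j : 𝓞 K) : K))‖ ≤
      T * ‖φ ((RingOfIntegers.basis K j : 𝓞 K) : K)‖ := by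
    intro j
    rw [Algebra.smul_def, map_mul, norm_mul]
    apply mul_le_mul_of_nonneg_right _ (norm_nonneg _)
    have : φ ((algebraMap ℚ K) (q j)) = ((q j : ℚ) : ℂ) := by
      simp
    rw [this]
    have h2 : ‖((q j : ℚ) : ℂ)‖ = |(q j : ℝ)| := by
      rw [← Complex.ofReal_ratCast, Complex.norm_real, Real.norm_eq_abs]
    rw [h2]
    exact hq j
  calc ‖∑ j, φ ((q j) • ((RingOfIntegers.basis K j : 𝓞 K) : K))‖
      ≤ ∑ j, ‖φ ((q j) • ((RingOfIntegers.basis K j : 𝓞 K) : K))‖ := norm_sum_le _ _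
    _ ≤ ∑ j, T * ‖φ ((RingOfIntegers.basis K j : 𝓞 K) : K)‖ :=
        Finset.sum_le_sum fun j _ => h1 j
    _ ≤ ∑ j, T * ∑ ψ : K →+* ℂ, ‖ψ ((RingOfIntegers.basis K j : 𝓞 K) : K)‖ := by
        apply Finset.sum_le_sum
        intro j _
        apply mul_le_mul_of_nonneg_left _ hT
        exact Finset.single_le_sum (f := fun ψ : K →+* ℂ =>
          ‖ψ ((RingOfIntegers.basis K j : 𝓞 K) : K)‖) (fun ψ _ => norm_nonneg _)
          (Finset.mem_univ φ)
    _ ≤ bsum K * T := by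
        rw [← Finset.mul_sum]
        unfold bsum
        nlinarith

theorem card_index : Fintype.card (Module.Free.ChooseBasisIndex ℤ (𝓞 K)) =
    Module.finrank ℚ K := by
  rw [← RingOfIntegers.rank K, Module.finrank_eq_card_chooseBasisIndex]

theorem coe_comb (a : Module.Free.ChooseBasisIndex ℤ (𝓞 K) → ℤ) :
    ((∑ j, a j • (RingOfIntegers.basis K j : 𝓞 K) : 𝓞 K) : K) =
      ∑ j, ((a j : ℤ) : ℚ) • ((RingOfIntegers.basis K j : 𝓞 K) : K) := by
  refine (map_sum (algebraMap (𝓞 K) K) (fun j => a j • (RingOfIntegers.basis K j : 𝓞 K))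
    Finset.univ).trans ?_
  apply Finset.sum_congr rfl
  intro j _
  rw [Int.cast_smul_eq_zsmul ℚ]
  exact map_zsmul (algebraMap (𝓞 K) K) _ _

/-- a small nonzero element of an ideal -/
theorem small_elt (Q : Ideal (𝓞 K)) (hQ : Q ≠ ⊥) : ∃ α : 𝓞 K, α ≠ 0 ∧ α ∈ Q ∧
    ∀ φ : K →+* ℂ, ‖φ (α : K)‖ ≤ bsum K * sz K Q := by
  classical
  set T : ℕ := ⌊sz K Q⌋₊ with hTdef
  have hsz : 1 ≤ sz K Q := one_le_sz K Q hQ
  have hTle : (T : ℝ) ≤ sz K Q := Nat.floor_le (by linarith)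
  have hTlt : sz K Q < T + 1 := Nat.lt_floor_add_one _
  set ι := Module.Free.ChooseBasisIndex ℤ (𝓞 K)
  have hN : Ideal.absNorm Q ≠ 0 := fun h => hQ (Ideal.absNorm_eq_zero_iff.1 h)
  have hcardQ : Nat.card (𝓞 K ⧸ Q) = Ideal.absNorm Q := rfl
  have : Finite (𝓞 K ⧸ Q) := Nat.finite_of_card_ne_zero (by rw [hcardQ]; exact hN)
  let _i : Fintype (𝓞 K ⧸ Q) := Fintype.ofFinite _
  let g : (ι → Fin (T + 1)) → 𝓞 K := fun a =>
    ∑ j, ((a j : ℕ) : ℤ) • (RingOfIntegers.basis K j : 𝓞 K)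
  have hlt : Fintype.card (𝓞 K ⧸ Q) < Fintype.card (ι → Fin (T + 1)) := by
    rw [Fintype.card_fun, Fintype.card_fin, card_index, ← Nat.card_eq_fintype_card, hcardQ]
    have h1 : ((Ideal.absNorm Q : ℕ) : ℝ) < ((T : ℝ) + 1) ^ Module.finrank ℚ K := by
      rw [← sz_pow K Q]
      exact pow_lt_pow_left₀ hTlt (by linarith)
        (Module.finrank_pos (R := ℚ) (M := K)).ne'
    exact_mod_cast h1
  obtain ⟨a, b, hab, heq⟩ := Fintype.exists_ne_map_eq_of_card_lt
    (fun a => (Ideal.Quotient.mk Q) (g a)) hlt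
  have hdiff : g a - g b = ∑ j, (((a j : ℕ) : ℤ) - ((b j : ℕ) : ℤ)) •
      (RingOfIntegers.basis K j : 𝓞 K) := by
    simp only [g]
    rw [← Finset.sum_sub_distrib]
    apply Finset.sum_congr rfl
    intro j _
    rw [sub_smul]
  refine ⟨g a - g b, ?_, ?_, ?_⟩
  · intro h0
    rw [hdiff] at h0
    have hli := (RingOfIntegers.basis K).linearIndependent
    have := Fintype.linearIndependent_iff.1 hli _ h0
    apply hab
    funext j
    have hj := this j
    have : ((a j : ℕ) : ℤ) = ((b j : ℕ) : ℤ) := by linarith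
    exact Fin.ext (by exact_mod_cast this)
  · exact (Ideal.Quotient.eq).1 heq
  · intro φ
    have h1 : ((g a - g b : 𝓞 K) : K) =
        ∑ j, ((((a j : ℕ) : ℤ) - ((b j : ℕ) : ℤ) : ℤ) : ℚ) •
          ((RingOfIntegers.basis K j : 𝓞 K) : K) := by
      rw [hdiff]
      exact coe_comb K _
    have h2 := comb_bound K φ (T : ℝ) (Nat.cast_nonneg _)
      (fun j => ((((a j : ℕ) : ℤ) - ((b j : ℕ) : ℤ) : ℤ) : ℚ)) (by
        intro j
        have ha : (a j : ℕ) ≤ T := Nat.lt_succ_iff.1 (a j).2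
        have hb : (b j : ℕ) ≤ T := Nat.lt_succ_iff.1 (b j).2
        have ha' : ((a j : ℕ) : ℝ) ≤ T := by exact_mod_cast ha
        have hb' : ((b j : ℕ) : ℝ) ≤ T := by exact_mod_cast hb
        have ha0 : (0 : ℝ) ≤ ((a j : ℕ) : ℝ) := Nat.cast_nonneg _
        have hb0 : (0 : ℝ) ≤ ((b j : ℕ) : ℝ) := Nat.cast_nonneg _
        push_cast
        rw [abs_le]
        constructor <;> linarith)
    rw [← h1] at h2
    refine h2.trans ?_
    apply mul_le_mul_of_nonneg_left hTle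
    linarith [one_le_bsum K]

/-- small representatives, all embeddings -/
theorem small_rep_emb (Q : Ideal (𝓞 K)) (hQ : Q ≠ ⊥) (u : 𝓞 K) : ∃ v : 𝓞 K,
    u - v ∈ Q ∧ ∀ φ : K →+* ℂ, ‖φ (v : K)‖ ≤ bsum K ^ 2 * sz K Q := by
  obtain ⟨α, hα0, hαQ, hα⟩ := small_elt K Q hQ
  have hαK : (α : K) ≠ 0 := by
    intro h
    exact hα0 (RingOfIntegers.coe_injective (by simpa using h))
  set x : K := (u : K) / (α : K) with hx
  set q := (integralBasis K).repr x with hq
  set z : 𝓞 K := ∑ j, ⌊q j⌋ • (RingOfIntegers.basis K j : 𝓞 K) with hz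
  refine ⟨u - α * z, ?_, ?_⟩
  · have : u - (u - α * z) = α * z := by ring
    rw [this]
    exact Ideal.mul_mem_right _ _ hαQ
  · intro φ
    have hxs : x = ∑ j, (q j) • ((RingOfIntegers.basis K j : 𝓞 K) : K) := by
      conv_lhs => rw [← (integralBasis K).sum_repr x]
      apply Finset.sum_congr rfl
      intro j _
      rw [integralBasis_apply]
    have hzs : (z : K) = ∑ j, ((⌊q j⌋ : ℤ) : ℚ) • ((RingOfIntegers.basis K j : 𝓞 K) : K) := by
      rw [hz]
      exact coe_comb K _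
    have h1 : ((u - α * z : 𝓞 K) : K) = (α : K) * (∑ j, (q j - ((⌊q j⌋ : ℤ) : ℚ)) •
        ((RingOfIntegers.basis K j : 𝓞 K) : K)) := by
      have h2 : (∑ j, (q j - ((⌊q j⌋ : ℤ) : ℚ)) • ((RingOfIntegers.basis K j : 𝓞 K) : K)) =
          x - (z : K) := by
        rw [hxs, hzs, ← Finset.sum_sub_distrib]
        apply Finset.sum_congr rfl
        intro j _
        rw [sub_smul]
      have h3 : ((u - α * z : 𝓞 K) : K) = (u : K) - (α : K) * (z : K) := by
        push_cast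
        ring
      rw [h2, h3, mul_sub, hx, mul_div_cancel₀ _ hαK]
    rw [h1, map_mul, norm_mul]
    have h3 := comb_bound K φ 1 zero_le_one (fun j => q j - ((⌊q j⌋ : ℤ) : ℚ)) (by
      intro j
      have h4 : (0 : ℚ) ≤ q j - ((⌊q j⌋ : ℤ) : ℚ) := by
        have := Int.floor_le (q j)
        linarith
      have h5 : q j - ((⌊q j⌋ : ℤ) : ℚ) ≤ 1 := by
        have := Int.lt_floor_add_one (q j)
        linarith
      rw [abs_of_nonneg (by exact_mod_cast h4)]
      exact_mod_cast h5)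
    have hb := one_le_bsum K
    have hsz : 1 ≤ sz K Q := one_le_sz K Q hQ
    calc ‖φ (α : K)‖ * ‖φ (∑ j, (q j - ((⌊q j⌋ : ℤ) : ℚ)) •
          ((RingOfIntegers.basis K j : 𝓞 K) : K))‖
        ≤ (bsum K * sz K Q) * (bsum K * 1) :=
          mul_le_mul (hα φ) h3 (norm_nonneg _) (by positivity)
      _ = bsum K ^ 2 * sz K Q := by ring

/-- many small integers, all embeddings -/
theorem many_small (H : ℝ) (hH : 0 ≤ H) : ∃ S : Finset (𝓞 K),
    (∀ x ∈ S, ∀ φ : K →+* ℂ, ‖φ (x : K)‖ ≤ bsum K * H) ∧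
    H ^ Module.finrank ℚ K ≤ (S.card : ℝ) := by
  classical
  set T : ℕ := ⌊H⌋₊ with hTdef
  have hTle : (T : ℝ) ≤ H := Nat.floor_le hH
  have hTlt : H < T + 1 := Nat.lt_floor_add_one _
  set ι := Module.Free.ChooseBasisIndex ℤ (𝓞 K)
  let g : (ι → Fin (T + 1)) → 𝓞 K := fun a =>
    ∑ j, ((a j : ℕ) : ℤ) • (RingOfIntegers.basis K j : 𝓞 K)
  have hinj : Function.Injective g := by
    intro a b hab
    have hdiff : ∑ j, (((a j : ℕ) : ℤ) - ((b j : ℕ) : ℤ)) •
        (RingOfIntegers.basis K j : 𝓞 K) = 0 := by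
      have : g a - g b = 0 := sub_eq_zero.2 hab
      simp only [g] at this
      rw [← Finset.sum_sub_distrib] at this
      rw [← this]
      apply Finset.sum_congr rfl
      intro j _
      rw [sub_smul]
    have hli := (RingOfIntegers.basis K).linearIndependent
    have := Fintype.linearIndependent_iff.1 hli _ hdiff
    funext j
    have hj := this j
    have : ((a j : ℕ) : ℤ) = ((b j : ℕ) : ℤ) := by linarith
    exact Fin.ext (by exact_mod_cast this)
  refine ⟨Finset.univ.image g, ?_, ?_⟩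
  · intro x hx φ
    obtain ⟨a, -, rfl⟩ := Finset.mem_image.1 hx
    have h1 : ((g a : 𝓞 K) : K) = ∑ j, ((((a j : ℕ) : ℤ) : ℤ) : ℚ) •
          ((RingOfIntegers.basis K j : 𝓞 K) : K) := by
      exact coe_comb K _
    rw [h1]
    apply comb_bound K φ H hH
    intro j
    have ha : (a j : ℕ) ≤ T := Nat.lt_succ_iff.1 (a j).2
    have ha' : ((a j : ℕ) : ℝ) ≤ T := by exact_mod_cast ha
    have ha0 : (0 : ℝ) ≤ ((a j : ℕ) : ℝ) := Nat.cast_nonneg _
    push_cast
    rw [abs_of_nonneg ha0]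
    linarith
  · rw [Finset.card_image_of_injective _ hinj, Finset.card_univ, Fintype.card_fun,
      Fintype.card_fin, card_index]
    push_cast
    exact pow_le_pow_left₀ hH hTlt.le _

theorem small_rep : ∃ C : ℝ, 0 < C ∧ ∀ Q : Ideal (𝓞 K), Q ≠ ⊥ → ∀ u : 𝓞 K, ∃ v : 𝓞 K,
    u - v ∈ Q ∧ Cube K (C * sz K Q) (v : K) := by
  have hb := one_le_bsum K
  refine ⟨2 * bsum K ^ 2, by positivity, fun Q hQ u => ?_⟩
  obtain ⟨v, h1, h2⟩ := small_rep_emb K Q hQ u
  refine ⟨v, h1, fun s => ?_⟩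
  have h3 := abs_kap_le K s (v : K)
  have h4 := h2 (s : K →+* ℂ)
  have h5 : ‖s (v : K)‖ ≤ bsum K ^ 2 * sz K Q := h4
  linarith

theorem V_low : ∃ c : ℝ, 0 < c ∧ ∀ H : ℝ, 1 ≤ H →
    c * H ^ Module.finrank ℚ K ≤ ((V K H).card : ℝ) := by
  have hb := one_le_bsum K
  refine ⟨(1 / (2 * bsum K)) ^ Module.finrank ℚ K, by positivity, fun H hH => ?_⟩
  obtain ⟨S, h1, h2⟩ := many_small K (1 / (2 * bsum K) * H) (by positivity)
  rw [← mul_pow]
  refine h2.trans ?_
  have h3 : S ⊆ V K H := by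
    intro x hx
    rw [mem_V]
    intro s
    have h4 := abs_kap_le K s (x : K)
    have h5 : ‖s (x : K)‖ ≤ bsum K * (1 / (2 * bsum K) * H) := h1 x hx (s : K →+* ℂ)
    have h6 : bsum K * (1 / (2 * bsum K) * H) = H / 2 := by
      field_simp
    linarith
  exact_mod_cast Finset.card_le_card h3

end

end Pool.Agent.CMD
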