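import Pool.Agent.CMD.Cells
import Pool.Agent.CMD.Rep

/-!
CMD, module Equi: the points of an ideal in a cube.

With `ρ = C4 sz Q` and representatives of the classes in the cube of side `ρ`:
`N #VI (H - ρ) ≤ #V H ≤ N #VI (H + ρ)`, and the shell between the cubes of sides `H - ρ` and `H + ρ`
is a union of `2 d` flat boxes.
-/

set_option autoImplicit false

namespace Pool.Agent.CMD

open NumberField Finset

section
variable (K : Type*) [Field K] [NumberField K]

theorem cube_add {a b : ℝ} {x y : K} (hx : Cube K a x) (hy : Cube K b y) :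
    Cube K (a + b) (x + y) := by
  intro s
  rw [kap_add]
  exact (abs_add_le _ _).trans (add_le_add (hx s) (hy s))

theorem cube_sub {a b : ℝ} {x y : K} (hx : Cube K a x) (hy : Cube K b y) :
    Cube K (a + b) (x - y) := by
  intro s
  rw [kap_sub]
  exact (abs_sub _ _).trans (add_le_add (hx s) (hy s))

theorem cube_mono {a b : ℝ} (h : a ≤ b) {x : K} (hx : Cube K a x) : Cube K b x :=
  fun s => (hx s).trans h

/-- the shell is small -/
theorem shell (Q : Ideal (𝓞 K)) (hQ : Q ≠ ⊥) (H ρ : ℝ) (hρ : 0 ≤ ρ) (hH : 0 ≤ H) :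
    ((VI K (H + ρ) Q).card : ℝ) - (VI K (H - ρ) Q).card ≤
      2 * Module.finrank ℚ K * ((2 * ρ / sz K Q + 2) *
        (2 * (H + ρ) / sz K Q + 2) ^ (Module.finrank ℚ K - 1)) := by
  classical
  set B : ℝ := (2 * ρ / sz K Q + 2) * (2 * (H + ρ) / sz K Q + 2) ^ (Module.finrank ℚ K - 1)
    with hB
  have hs : 0 < sz K Q := lt_of_lt_of_le one_pos (one_le_sz K Q hQ)
  let R : (K →ₐ[ℚ] ℂ) × Bool → Finset (𝓞 K) := fun p =>
    (VI K (H + ρ) Q).filter (fun x => H - ρ ≤ (if p.2 then 1 else -1) * kap K p.1 (x : K))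
  have hsub : VI K (H + ρ) Q ⊆ VI K (H - ρ) Q ∪ Finset.univ.biUnion R := by
    intro x hx
    rw [Finset.mem_union]
    by_cases hc : Cube K (H - ρ) (x : K)
    · left
      rw [mem_VI] at hx ⊢
      exact ⟨hc, hx.2⟩
    · right
      rw [Finset.mem_biUnion]
      unfold Cube at hc
      push Not at hc
      obtain ⟨s, hs1⟩ := hc
      rcases le_total 0 (kap K s (x : K)) with h0 | h0
      · refine ⟨(s, true), Finset.mem_univ _, ?_⟩
        simp only [R, Finset.mem_filter]
        refine ⟨hx, ?_⟩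
        rw [abs_of_nonneg h0] at hs1
        simpa using hs1.le
      · refine ⟨(s, false), Finset.mem_univ _, ?_⟩
        simp only [R, Finset.mem_filter]
        refine ⟨hx, ?_⟩
        rw [abs_of_nonpos h0] at hs1
        simpa using hs1.le
  have hRc : ∀ p, ((R p).card : ℝ) ≤ B := by
    intro p
    obtain ⟨σ, b⟩ := p
    let a : (K →ₐ[ℚ] ℂ) → ℝ := fun s => if s = σ then (if b then H - ρ else -(H + ρ))
      else -(H + ρ)
    let A : (K →ₐ[ℚ] ℂ) → ℝ := fun s => if s = σ then 2 * ρ else 2 * (H + ρ)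
    have h1 := cells K Q hQ (R (σ, b)) (by
      intro x hx y hy
      simp only [R, Finset.mem_filter, mem_VI] at hx hy
      exact Q.sub_mem hx.1.2 hy.1.2) a A (by
      intro s
      simp only [A]
      split_ifs <;> positivity) (by
      intro x hx s
      simp only [R, Finset.mem_filter, mem_VI] at hx
      have h2 := abs_le.1 (hx.1.1 s)
      simp only [a, A]
      by_cases hsσ : s = σ
      · subst hsσ
        have h3 := hx.2
        rw [if_pos rfl, if_pos rfl]
        cases b
        · simp only [Bool.false_eq_true, if_false] at h3 ⊢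
          constructor
          · linarith [h2.1]
          · linarith
        · simp only [if_true] at h3 ⊢
          constructor
          · linarith
          · linarith [h2.2]
      · rw [if_neg hsσ, if_neg hsσ]
        constructor
        · linarith [h2.1]
        · linarith [h2.2])
    refine h1.trans (le_of_eq ?_)
    rw [hB, ← Finset.mul_prod_erase Finset.univ _ (Finset.mem_univ σ)]
    have h4 : A σ = 2 * ρ := by simp [A]
    rw [h4]
    congr 1
    rw [Finset.prod_congr rfl (g := fun _ => 2 * (H + ρ) / sz K Q + 2), Finset.prod_const,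
      Finset.card_erase_of_mem (Finset.mem_univ σ), Finset.card_univ, card_emb]
    intro s hs2
    have h5 : A s = 2 * (H + ρ) := by
      simp only [A]
      rw [if_neg (Finset.ne_of_mem_erase hs2)]
    rw [h5]
  have h1 : (VI K (H + ρ) Q).card ≤ (VI K (H - ρ) Q).card + ∑ p, (R p).card :=
    (Finset.card_le_card hsub).trans ((Finset.card_union_le _ _).trans
      (Nat.add_le_add_left Finset.card_biUnion_le _))
  have h2 : ((VI K (H + ρ) Q).card : ℝ) ≤ (VI K (H - ρ) Q).card + ∑ p, ((R p).card : ℝ) := by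
    exact_mod_cast h1
  have h3 : ∑ p, ((R p).card : ℝ) ≤ 2 * Module.finrank ℚ K * B := by
    refine (Finset.sum_le_sum (fun p _ => hRc p)).trans (le_of_eq ?_)
    rw [Finset.sum_const, Finset.card_univ, Fintype.card_prod, card_emb, Fintype.card_bool,
      nsmul_eq_mul]
    push_cast
    ring
  linarith

theorem equi : ∃ C : ℝ, 0 < C ∧ ∀ Q : Ideal (𝓞 K), Q ≠ ⊥ → ∀ H : ℝ, sz K Q ≤ H →
    |((VI K H Q).card : ℝ) - ((V K H).card : ℝ) / Ideal.absNorm Q| ≤
      C * (H / sz K Q) ^ (Module.finrank ℚ K - 1) := by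
  classical
  obtain ⟨C4, hC4, hrep⟩ := small_rep K
  have hd : 0 < Module.finrank ℚ K := Module.finrank_pos
  refine ⟨2 * Module.finrank ℚ K * ((2 * C4 + 2) * (2 * C4 + 4) ^ (Module.finrank ℚ K - 1)),
    by positivity, ?_⟩
  intro Q hQ H hH
  have hs1 := one_le_sz K Q hQ
  have hs : 0 < sz K Q := lt_of_lt_of_le one_pos hs1
  have hH0 : 0 ≤ H := hs.le.trans hH
  set ρ : ℝ := C4 * sz K Q with hρdef
  have hρ : 0 ≤ ρ := by positivity
  have : Finite (𝓞 K ⧸ Q) := Ideal.finiteQuotientOfFreeOfNeBot Q hQ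
  let _i : Fintype (𝓞 K ⧸ Q) := Fintype.ofFinite _
  have hNcard : ((Fintype.card (𝓞 K ⧸ Q) : ℕ) : ℝ) = Ideal.absNorm Q := by
    rw [Ideal.absNorm_apply, Submodule.cardQuot_apply, Nat.card_eq_fintype_card]
  have hN0 : (0 : ℝ) < Ideal.absNorm Q := by
    rw [← sz_pow]
    positivity
  have hrep2 : ∀ c : 𝓞 K ⧸ Q, ∃ v : 𝓞 K, Ideal.Quotient.mk Q v = c ∧ Cube K ρ (v : K) := by
    intro c
    obtain ⟨u, rfl⟩ := Ideal.Quotient.mk_surjective c
    obtain ⟨v, hv1, hv2⟩ := hrep Q hQ u
    exact ⟨v, (Ideal.Quotient.eq.2 hv1).symm, hv2⟩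
  choose v hv1 hv2 using hrep2
  have hfib : (V K H).card = ∑ c : 𝓞 K ⧸ Q,
      ((V K H).filter (fun x => Ideal.Quotient.mk Q x = c)).card :=
    Finset.card_eq_sum_card_fiberwise (fun x _ => Finset.mem_coe.2 (Finset.mem_univ _))
  have hup : ∀ c : 𝓞 K ⧸ Q,
      ((V K H).filter (fun x => Ideal.Quotient.mk Q x = c)).card ≤ (VI K (H + ρ) Q).card := by
    intro c
    apply Finset.card_le_card_of_injOn (fun x => x - v c)
    · intro x hx
      rw [Finset.mem_coe, Finset.mem_filter, mem_V] at hx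
      rw [Finset.mem_coe, mem_VI]
      constructor
      · have e : ((x - v c : 𝓞 K) : K) = (x : K) - (v c : K) := by push_cast; rfl
        rw [e]
        exact cube_sub K hx.1 (hv2 c)
      · apply Ideal.Quotient.eq.1
        rw [hx.2, hv1 c]
    · intro x _ y _ hxy
      exact sub_left_injective hxy
  have hlo : ∀ c : 𝓞 K ⧸ Q,
      (VI K (H - ρ) Q).card ≤ ((V K H).filter (fun x => Ideal.Quotient.mk Q x = c)).card := by
    intro c
    apply Finset.card_le_card_of_injOn (fun x => x + v c)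
    · intro x hx
      rw [Finset.mem_coe, mem_VI] at hx
      rw [Finset.mem_coe, Finset.mem_filter, mem_V]
      constructor
      · have e : ((x + v c : 𝓞 K) : K) = (x : K) + (v c : K) := by push_cast; rfl
        rw [e]
        have := cube_add K hx.1 (hv2 c)
        rwa [sub_add_cancel] at this
      · rw [map_add, Ideal.Quotient.eq_zero_iff_mem.2 hx.2, zero_add, hv1 c]
    · intro x _ y _ hxy
      exact add_left_injective _ hxy
  have h1 : ((V K H).card : ℝ) ≤ Ideal.absNorm Q * (VI K (H + ρ) Q).card := by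
    rw [← hNcard, hfib]
    push_cast
    refine (Finset.sum_le_sum (fun c _ => (Nat.cast_le (α := ℝ)).2 (hup c))).trans
      (le_of_eq ?_)
    rw [Finset.sum_const, Finset.card_univ, nsmul_eq_mul]
  have h2 : Ideal.absNorm Q * ((VI K (H - ρ) Q).card : ℝ) ≤ (V K H).card := by
    rw [← hNcard, hfib]
    push_cast
    refine le_trans (le_of_eq ?_)
      (Finset.sum_le_sum (fun c _ => (Nat.cast_le (α := ℝ)).2 (hlo c)))
    rw [Finset.sum_const, Finset.card_univ, nsmul_eq_mul]
  have h3 : ((V K H).card : ℝ) / Ideal.absNorm Q ≤ (VI K (H + ρ) Q).card := by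
    rw [div_le_iff₀' hN0]
    exact h1
  have h4 : ((VI K (H - ρ) Q).card : ℝ) ≤ ((V K H).card : ℝ) / Ideal.absNorm Q := by
    rw [le_div_iff₀' hN0]
    exact h2
  have h5 : ((VI K H Q).card : ℝ) ≤ (VI K (H + ρ) Q).card := by
    apply Nat.cast_le.2
    apply Finset.card_le_card
    intro x hx
    rw [mem_VI] at hx ⊢
    exact ⟨cube_mono K (by linarith) hx.1, hx.2⟩
  have h6 : ((VI K (H - ρ) Q).card : ℝ) ≤ (VI K H Q).card := by
    apply Nat.cast_le.2
    apply Finset.card_le_card
    intro x hx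
    rw [mem_VI] at hx ⊢
    exact ⟨cube_mono K (by linarith) hx.1, hx.2⟩
  have h7 := shell K Q hQ H ρ hρ hH0
  have h8 : |((VI K H Q).card : ℝ) - ((V K H).card : ℝ) / Ideal.absNorm Q| ≤
      ((VI K (H + ρ) Q).card : ℝ) - (VI K (H - ρ) Q).card := by
    rw [abs_le]
    constructor <;> linarith
  refine h8.trans (h7.trans ?_)
  have e1 : 2 * ρ / sz K Q = 2 * C4 := by
    rw [hρdef]
    field_simp
  have hHs : 1 ≤ H / sz K Q := by
    rw [one_le_div hs]
    exact hH
  have e2 : 2 * (H + ρ) / sz K Q + 2 ≤ (2 * C4 + 4) * (H / sz K Q) := by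
    have e3 : 2 * (H + ρ) / sz K Q = 2 * (H / sz K Q) + 2 * C4 := by
      rw [hρdef]
      field_simp
    rw [e3]
    nlinarith
  rw [e1, mul_assoc (2 * (Module.finrank ℚ K : ℝ)), mul_assoc (2 * C4 + 2), ← mul_pow]
  apply mul_le_mul_of_nonneg_left _ (by positivity)
  apply mul_le_mul_of_nonneg_left _ (by positivity)
  apply pow_le_pow_left₀ (by positivity) e2

end

end Pool.Agent.CMD
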