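import Pool.Agent.CMD.Main
import Pool.Agent.CYD.Final

/-!
CMD: from the ideal form (`Main2`) to points of the plane.
-/

set_option autoImplicit false

namespace Pool.Agent.CMD

open NumberField Finset ComplexConjugate

open Pool.Agent.CYD (hh card_image_le_card_image)

variable {K : Type*} [Field K] [NumberField K] (e : 𝓞 K ≃+* 𝓞 K)

/-- `φ (q z) = ‖φ z‖²` -/
lemma emb_q (φ : K →+* ℂ) (hφ : ∀ z : 𝓞 K, φ (e z) = conj (φ z)) (z : 𝓞 K) :
    φ ((q e z : 𝓞 K) : K) = ((‖φ z‖ ^ 2 : ℝ) : ℂ) := by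
  have h : ((q e z : 𝓞 K) : K) = (z : K) * ((e z : 𝓞 K) : K) := rfl
  rw [h, map_mul, hφ, Complex.mul_conj, Complex.normSq_eq_norm_sq]

lemma q_eq_of_norm_eq (φ : K →+* ℂ) (hφ : ∀ z : 𝓞 K, φ (e z) = conj (φ z)) (z z' : 𝓞 K)
    (h : ‖φ z‖ = ‖φ z'‖) : q e z = q e z' := by
  apply RingOfIntegers.ext
  apply φ.injective
  rw [emb_q e φ hφ, emb_q e φ hφ, h]

theorem final_of (h : Main2 e) (φ : K →+* ℂ) (hφ : ∀ z : 𝓞 K, φ (e z) = conj (φ z)) :
    ∃ c : ℝ, 0 < c ∧ ∀ (t : ℂ) (M : ℝ) (P : Finset ℂ), 2 ≤ P.card →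
      (∀ x ∈ P, ∀ y ∈ P, ∃ z : 𝓞 K, x - y = t * φ z ∧
        |((Algebra.norm ℚ (z : K) : ℚ) : ℝ)| ≤ M) →
      c * (P.card : ℝ) ^ 2 /
          √(Real.log (2 + M / P.card) * Real.log (2 * P.card + M)) ≤
        ∑ x ∈ P, ((((P.erase x).image (fun y => dist x y)).card : ℕ) : ℝ) := by
  classical
  obtain ⟨c, C₁, hc, hC₁, H⟩ := h
  have hl2 : (0.69 : ℝ) < Real.log 2 := by have := Real.log_two_gt_d9; linarith
  set A : ℝ := 1 + 2 * Real.log C₁ with hA
  have hlC : 0 ≤ Real.log C₁ := Real.log_nonneg hC₁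
  have hA1 : 1 ≤ A := by linarith
  refine ⟨c / A, by positivity, ?_⟩
  intro t M P hP hz
  -- coordinates
  obtain ⟨x₀, hx₀⟩ : P.Nonempty := card_pos.1 (by omega)
  have hz' : ∀ x, ∃ z : 𝓞 K, x ∈ P → x - x₀ = t * φ z := by
    intro x
    by_cases hx : x ∈ P
    · obtain ⟨z, hz1, -⟩ := hz x hx x₀ hx₀
      exact ⟨z, fun _ => hz1⟩
    · exact ⟨0, fun h => absurd h hx⟩
  choose f hf using hz'
  have hdiff : ∀ x ∈ P, ∀ y ∈ P, x - y = t * φ ((f x - f y : 𝓞 K) : K) := by
    intro x hx y hy
    have h1 := hf x hx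
    have h2 := hf y hy
    have : ((f x - f y : 𝓞 K) : K) = (f x : K) - (f y : K) := by push_cast; rfl
    rw [this, map_sub, mul_sub, ← h1, ← h2]
    ring
  have hinj : Set.InjOn f (P : Set ℂ) := by
    intro x hx y hy hxy
    have := hdiff x hx y hy
    rw [hxy, sub_self] at this
    simpa [sub_eq_zero] using this
  obtain ⟨a, ha, b, hb, hab⟩ := one_lt_card.1 (show 1 < P.card by omega)
  have ht : t ≠ 0 := by
    rintro rfl
    have := hdiff a ha b hb
    rw [zero_mul, sub_eq_zero] at this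
    exact hab this
  set S := P.image f with hS
  have hSc : S.card = P.card := card_image_of_injOn hinj
  have hnorm : ∀ x ∈ S, ∀ y ∈ S, ((Ideal.absNorm (Ideal.span {x - y}) : ℕ) : ℝ) ≤ M := by
    intro x' hx' y' hy'
    obtain ⟨x, hx, rfl⟩ := mem_image.1 hx'
    obtain ⟨y, hy, rfl⟩ := mem_image.1 hy'
    obtain ⟨z, hz1, hz2⟩ := hz x hx y hy
    have hzz : z = f x - f y := by
      have h1 := hdiff x hx y hy
      rw [hz1] at h1
      have h2 := mul_left_cancel₀ ht h1
      exact RingOfIntegers.ext (φ.injective h2)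
    rw [← hzz]
    have : ((Ideal.absNorm (Ideal.span {z}) : ℕ) : ℝ) = |((Algebra.norm ℚ (z : K) : ℚ) : ℝ)| := by
      rw [Ideal.absNorm_span_singleton, Nat.cast_natAbs, Int.cast_abs]
      congr 1
      have := Algebra.coe_norm_int z
      rw [← this]
      push_cast
      rfl
    rw [this]
    exact hz2
  obtain ⟨hpack, hmain⟩ := H M ⊤ (by simp) S (by omega) (fun _ _ _ _ => trivial) hnorm
  simp only [Ideal.absNorm_top, Nat.cast_one, Real.log_one, sub_zero, hSc] at hpack hmain
  -- number of distances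
  have hW : ((W e S : ℕ) : ℝ) ≤
      ∑ x ∈ P, ((((P.erase x).image (fun y => dist x y)).card : ℕ) : ℝ) := by
    have : W e S ≤ ∑ x ∈ P, ((P.erase x).image (fun y => dist x y)).card := by
      unfold W
      rw [hS, sum_image hinj]
      refine sum_le_sum fun x hx => ?_
      have hD : D e (P.image f) (f x) = (P.erase x).image (fun y => q e (f x - f y)) := by
        unfold D
        ext v
        simp only [mem_image, mem_erase]
        constructor
        · rintro ⟨_, ⟨hne, y, hy, rfl⟩, rfl⟩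
          exact ⟨y, ⟨fun h => hne (by rw [h]), hy⟩, rfl⟩
        · rintro ⟨y, ⟨hne, hy⟩, rfl⟩
          exact ⟨f y, ⟨fun h => hne (hinj hy hx h), y, hy, rfl⟩, rfl⟩
      rw [hD]
      refine card_image_le_card_image _ _ _ ?_
      intro y hy y' hy' hd
      have hy := mem_of_mem_erase hy
      have hy' := mem_of_mem_erase hy'
      apply q_eq_of_norm_eq e φ hφ
      rw [dist_eq_norm, dist_eq_norm, hdiff x hx y hy, hdiff x hx y' hy', norm_mul, norm_mul] at hd
      exact mul_left_cancel₀ (norm_ne_zero_iff.2 ht) hd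
    exact_mod_cast this
  refine le_trans ?_ (hmain.trans hW)
  -- analysis
  have hn : (2 : ℝ) ≤ P.card := by exact_mod_cast hP
  set n : ℝ := (P.card : ℝ) with hnn
  have hM0 : 0 ≤ M := (Nat.cast_nonneg _).trans (hnorm (f a) (mem_image_of_mem f ha) (f b)
    (mem_image_of_mem f hb))
  have hlogn : 0 ≤ Real.log n := Real.log_nonneg (by linarith)
  have hMpos : 0 < M := by
    rcases hM0.lt_or_eq with h | h
    · exact h
    · exfalso
      rw [← h, mul_zero, Real.log_zero] at hpack
      linarith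
  have hCM : 0 < C₁ * M := by positivity
  unfold hh
  set B := Real.log (C₁ * M) with hB
  have hBe : B = Real.log C₁ + Real.log M := by
    rw [hB, Real.log_mul (by positivity) (by positivity)]
  set a' := Real.log (2 + M / n) with ha'
  set b' := Real.log (2 * n + M) with hb'
  have ha1 : (0.69 : ℝ) < a' := by
    refine hl2.trans_le (Real.log_le_log (by norm_num) ?_)
    have : 0 ≤ M / n := by positivity
    linarith
  have hb1 : (0.69 : ℝ) < b' := hl2.trans_le (Real.log_le_log (by norm_num) (by linarith))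
  have hB1 : B ≤ A * b' := by
    have : Real.log M ≤ b' := Real.log_le_log hMpos (by linarith)
    nlinarith
  have hB2 : B - Real.log n ≤ A * a' := by
    have : Real.log M - Real.log n ≤ a' := by
      rw [← Real.log_div (by positivity) (by positivity)]
      exact Real.log_le_log (by positivity) (by linarith)
    nlinarith
  have hBpos : 0 < B := by linarith
  have hprod : B * (B - Real.log n) ≤ A ^ 2 * (a' * b') := by
    calc B * (B - Real.log n) ≤ (A * b') * (A * a') :=
          mul_le_mul hB1 hB2 (by linarith) (by positivity)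
      _ = _ := by ring
  have hsq : √(B * (B - Real.log n)) ≤ A * √(a' * b') := by
    calc √(B * (B - Real.log n)) ≤ √(A ^ 2 * (a' * b')) := Real.sqrt_le_sqrt hprod
      _ = _ := by rw [Real.sqrt_mul (by positivity), Real.sqrt_sq (by positivity)]
  have hab : 0 < √(a' * b') := Real.sqrt_pos.2 (by positivity)
  have hLp : 0 < √(B * (B - Real.log n)) := Real.sqrt_pos.2 (by nlinarith)
  have e1 : c / A * n ^ 2 / √(a' * b') = c * n ^ 2 / (A * √(a' * b')) := by
    field_simp
  rw [e1]
  exact div_le_div_of_nonneg_left (by positivity) hLp hsq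


/-- the automorphism of `K` induced by complex conjugation -/
noncomputable def conjK (φ : K →+* ℂ) (h : ∀ z : K, ∃ z' : K, φ z' = conj (φ z)) : K ≃+* K where
  toFun z := (h z).choose
  invFun z := (h z).choose
  left_inv z := φ.injective (by
    rw [(h _).choose_spec, (h _).choose_spec, Complex.conj_conj])
  right_inv z := φ.injective (by
    rw [(h _).choose_spec, (h _).choose_spec, Complex.conj_conj])
  map_mul' a b := φ.injective (by
    rw [(h _).choose_spec, map_mul, map_mul, map_mul, (h _).choose_spec, (h _).choose_spec])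
  map_add' a b := φ.injective (by
    rw [(h _).choose_spec, map_add, map_add, map_add, (h _).choose_spec, (h _).choose_spec])

theorem two_le_finrank (φ : K →+* ℂ) (hr : ∃ z : K, (φ z).im ≠ 0) :
    2 ≤ Module.finrank ℚ K := by
  by_contra hcon
  have h0 := Module.finrank_pos (R := ℚ) (M := K)
  have h1 : Module.finrank ℚ K = 1 := by omega
  obtain ⟨z, hz⟩ := hr
  obtain ⟨c, hc⟩ := (finrank_eq_one_iff_of_nonzero' (1 : K) one_ne_zero).1 h1 z
  apply hz
  rw [← hc, Rat.smul_one_eq_cast, map_ratCast]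
  simp

/-- the final statement for a number field embedded in the complex numbers with an image closed
under conjugation -/
theorem final_conj (hmert : Mert K)
    (hwsq : ∀ N : ℕ, ∑ k ∈ Icc 1 N, wK K k * k ≤ (Module.finrank ℚ K : ℝ) * N ^ 2)
    (φ : K →+* ℂ) (hφ : ∀ z : K, ∃ z' : K, φ z' = conj (φ z)) :
    ∃ c : ℝ, 0 < c ∧ ∀ (t : ℂ) (M : ℝ) (P : Finset ℂ), 2 ≤ P.card →
      (∀ x ∈ P, ∀ y ∈ P, ∃ z : 𝓞 K, x - y = t * φ z ∧
        |((Algebra.norm ℚ (z : K) : ℚ) : ℝ)| ≤ M) →
      c * (P.card : ℝ) ^ 2 /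
          √(Real.log (2 + M / P.card) * Real.log (2 * P.card + M)) ≤
        ∑ x ∈ P, ((((P.erase x).image (fun y => dist x y)).card : ℕ) : ℝ) := by
  refine final_of (RingOfIntegers.mapRingEquiv (conjK φ hφ))
    (main2 _ hmert hwsq) φ ?_
  intro z
  have h1 : ((RingOfIntegers.mapRingEquiv (conjK φ hφ) z : 𝓞 K) : K) = conjK φ hφ (z : K) := rfl
  rw [h1]
  exact (hφ (z : K)).choose_spec

end Pool.Agent.CMD
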