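import Pool.Agent.GAPD.Main

/-!
# Dense subsets of all generalised arithmetic progressions of the plane

From the theorem for number fields (`ThmA`) and the linear bound outside the exceptional spans.
-/

set_option autoImplicit false

namespace Pool.Agent.CMD

open NumberField ComplexConjugate Module

/-- the theorem for number fields -/
def ThmA : Prop := ∀ (K : Type) [Field K] [NumberField K] (φ : K →+* ℂ),
    (∀ z : K, ∃ z' : K, φ z' = conj (φ z)) → (∃ z : K, (φ z).im ≠ 0) →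
    ∃ c : ℝ, 0 < c ∧ ∀ (t : ℂ) (M : ℝ) (P : Finset ℂ), 2 ≤ P.card →
      (∀ x ∈ P, ∀ y ∈ P, ∃ z : 𝓞 K, x - y = t * φ z ∧
        |((Algebra.norm ℚ (z : K) : ℚ) : ℝ)| ≤ M) →
      c * (P.card : ℝ) ^ 2 /
          √(Real.log (2 + M / P.card) * Real.log (2 * P.card + M)) ≤
        ∑ x ∈ P, ((((P.erase x).image (fun y => dist x y)).card : ℕ) : ℝ)

/-- the norm as a product over the embeddings -/
theorem abs_norm_le {K : Type} [Field K] [NumberField K] (x : K) (B : ℝ)
    (hB : ∀ s : K →ₐ[ℚ] ℂ, ‖s x‖ ≤ B) :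
    |((Algebra.norm ℚ x : ℚ) : ℝ)| ≤ B ^ finrank ℚ K := by
  have h1 := Algebra.norm_eq_prod_embeddings ℚ ℂ x
  have h2 : |((Algebra.norm ℚ x : ℚ) : ℝ)| = ∏ s : K →ₐ[ℚ] ℂ, ‖s x‖ := by
    rw [← norm_prod, ← h1]
    have h3 : algebraMap ℚ ℂ (Algebra.norm ℚ x) = (((Algebra.norm ℚ x : ℚ) : ℝ) : ℂ) := by simp
    rw [h3, Complex.norm_real, Real.norm_eq_abs]
  rw [h2, ← AlgHom.card ℚ K ℂ]
  calc ∏ s : K →ₐ[ℚ] ℂ, ‖s x‖ ≤ ∏ _s : K →ₐ[ℚ] ℂ, B :=
        Finset.prod_le_prod (fun s _ => norm_nonneg _) (fun s _ => hB s)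
    _ = B ^ Fintype.card (K →ₐ[ℚ] ℂ) := by simp

/-- a set in the box has at most `(2 H + 1) ^ d` elements -/
theorem card_le_box {d : ℕ} (v : Fin d → ℂ) (H : ℕ) (x₀ t : ℂ) (P : Finset ℂ)
    (hP : ∀ y ∈ P, ∃ a : Fin d → ℤ, (∀ j, |a j| ≤ (H : ℤ)) ∧ y = x₀ + t * ∑ j, (a j : ℂ) * v j) :
    P.card ≤ (2 * H + 1) ^ d := by
  classical
  rw [← Pool.Agent.GAPD.card_bx (d := d) H]
  have h1 : P ⊆ (Pool.Agent.GAPD.bx d H).image (fun a => x₀ + t * ∑ j, (a j : ℂ) * v j) := by
    intro y hy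
    obtain ⟨a, ha, hay⟩ := hP y hy
    rw [Finset.mem_image]
    exact ⟨a, (Pool.Agent.GAPD.mem_bx H a).2 ((Pool.Agent.GAPD.nn_le_iff a H).2 ha), hay.symm⟩
  exact (Finset.card_le_card h1).trans Finset.card_image_le

/-- comparison of the logarithms -/
theorem log_compare (C : ℝ) (hC : 1 ≤ C) :
    ∃ A : ℝ, 0 < A ∧ ∀ (n : ℕ) (N : ℝ), 2 ≤ n → 0 < N →
      √(Real.log (2 + C * N / n) * Real.log (2 * n + C * N)) ≤
        A * √(Real.log (2 + N / n) * Real.log (2 * n + N)) := by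
  have hl2 : 0 < Real.log 2 := Real.log_pos (by norm_num)
  have hlC : 0 ≤ Real.log C := Real.log_nonneg hC
  set A : ℝ := 1 + Real.log C / Real.log 2 with hA
  have hA0 : 0 < A := by positivity
  have key : ∀ x y : ℝ, 2 ≤ y → 0 < x → x ≤ C * y → Real.log x ≤ A * Real.log y := by
    intro x y hy hx hxy
    have h1 : Real.log x ≤ Real.log (C * y) := Real.log_le_log hx hxy
    rw [Real.log_mul (by linarith) (by linarith)] at h1
    have h2 : Real.log 2 ≤ Real.log y := Real.log_le_log (by norm_num) hy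
    have h3 : Real.log C ≤ Real.log C / Real.log 2 * Real.log y := by
      have h4 : Real.log C = Real.log C / Real.log 2 * Real.log 2 := by field_simp
      calc Real.log C = Real.log C / Real.log 2 * Real.log 2 := h4
        _ ≤ Real.log C / Real.log 2 * Real.log y := by gcongr
    rw [hA]; linarith
  refine ⟨A, hA0, ?_⟩
  intro n N hn hN
  have hn' : (2 : ℝ) ≤ n := by exact_mod_cast hn
  have hn0 : (0 : ℝ) < n := by linarith
  have hr : 0 < N / n := by positivity
  have e1 : Real.log (2 + C * N / n) ≤ A * Real.log (2 + N / n) := by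
    apply key _ _ (by linarith)
    · have : 0 < C * N / n := by positivity
      linarith
    · have : C * N / n = C * (N / n) := by ring
      rw [this]; nlinarith
  have e2 : Real.log (2 * n + C * N) ≤ A * Real.log (2 * n + N) := by
    apply key _ _ (by linarith)
    · have : 0 < C * N := by positivity
      linarith
    · nlinarith
  have p1 : 0 ≤ Real.log (2 + C * N / n) := by
    apply Real.log_nonneg
    have : 0 < C * N / n := by positivity
    linarith
  have p2 : 0 ≤ Real.log (2 * n + C * N) := by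
    apply Real.log_nonneg
    have : 0 < C * N := by positivity
    linarith
  have p3 : 0 ≤ Real.log (2 + N / n) := Real.log_nonneg (by linarith)
  have p4 : 0 ≤ Real.log (2 * n + N) := Real.log_nonneg (by linarith)
  have h3 : Real.log (2 + C * N / n) * Real.log (2 * n + C * N) ≤
      (A * Real.log (2 + N / n)) * (A * Real.log (2 * n + N)) :=
    mul_le_mul e1 e2 p2 (by positivity)
  have h4 : (A * Real.log (2 + N / n)) * (A * Real.log (2 * n + N)) =
      (A * √(Real.log (2 + N / n) * Real.log (2 * n + N))) ^ 2 := by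
    rw [mul_pow, Real.sq_sqrt (by positivity)]; ring
  rw [h4] at h3
  exact Real.sqrt_le_iff.2 ⟨by positivity, h3⟩

/-- the exceptional case -/
theorem gap_field (hA : ThmA) (d : ℕ) (v : Fin d → ℂ) (hv : LinearIndependent ℚ v)
    (K : Subfield ℂ) (z : ℂ) (hconj : ∀ w ∈ K, conj w ∈ K) (him : ∃ w ∈ K, w.im ≠ 0)
    (hz : z ≠ 0) (hV : (Submodule.span ℚ (Set.range v) : Set ℂ) = (fun w => z * w) '' (K : Set ℂ)) :
    ∃ c : ℝ, 0 < c ∧ ∀ H : ℕ, 1 ≤ H → ∀ (x₀ t : ℂ) (P : Finset ℂ), 2 ≤ P.card →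
      (∀ y ∈ P, ∃ a : Fin d → ℤ, (∀ j, |a j| ≤ (H : ℤ)) ∧
        y = x₀ + t * ∑ j, (a j : ℂ) * v j) →
      c * (P.card : ℝ) ^ 2 *
          (1 / √(Real.log (2 + (H : ℝ) ^ d / P.card) * Real.log (2 * P.card + (H : ℝ) ^ d))) ≤
        ∑ x ∈ P, ((((P.erase x).image (fun y => dist x y)).card : ℕ) : ℝ) := by
  classical
  set W : Submodule ℚ ℂ := Submodule.span ℚ (Set.range v) with hW
  have hfin : Module.Finite ℚ W := Module.Finite.span_of_finite ℚ (Set.finite_range v)
  have hmem : ∀ w : K, z * (w : ℂ) ∈ W := by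
    intro w
    have : z * (w : ℂ) ∈ (W : Set ℂ) := by rw [hV]; exact ⟨w, w.2, rfl⟩
    exact this
  let f : K →ₗ[ℚ] W :=
    { toFun := fun w => ⟨z * (w : ℂ), hmem w⟩
      map_add' := by
        intro a b
        apply Subtype.ext
        show z * ((a + b : K) : ℂ) = z * (a : ℂ) + z * (b : ℂ)
        push_cast; ring
      map_smul' := by
        intro r a
        apply Subtype.ext
        show z * ((r • a : K) : ℂ) = r • (z * (a : ℂ))
        rw [Rat.smul_def, Rat.smul_def]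
        push_cast; ring }
  have hfinj : Function.Injective f := by
    intro a b hab
    have h1 : z * (a : ℂ) = z * (b : ℂ) := congrArg Subtype.val hab
    exact Subtype.ext (mul_left_cancel₀ hz h1)
  have hfsur : Function.Surjective f := by
    rintro ⟨w, hw⟩
    have h1 : w ∈ (fun w => z * w) '' (K : Set ℂ) := by rw [← hV]; exact hw
    obtain ⟨k, hk, hkw⟩ := h1
    exact ⟨⟨k, hk⟩, Subtype.ext hkw⟩
  have hfd : FiniteDimensional ℚ K := FiniteDimensional.of_injective f hfinj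
  have hnf : NumberField K := { to_charZero := inferInstance, to_finiteDimensional := hfd }
  have hrank : finrank ℚ K = d := by
    have h1 := (LinearEquiv.ofBijective f ⟨hfinj, hfsur⟩).finrank_eq
    rw [h1, hW, finrank_span_eq_card hv, Fintype.card_fin]
  -- the vectors as elements of `K`
  have hk : ∀ j, ∃ k : K, v j = z * (k : ℂ) := by
    intro j
    have h1 : v j ∈ (W : Set ℂ) := Submodule.subset_span ⟨j, rfl⟩
    rw [hV] at h1
    obtain ⟨k, hk, hkw⟩ := h1
    exact ⟨⟨k, hk⟩, hkw.symm⟩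
  choose k hk using hk
  obtain ⟨N, hN0, hN⟩ := exists_integral_multiples ℤ ℚ (Finset.univ.image k)
  have hN' : ∀ j, IsIntegral ℤ (N • k j) := fun j => hN _ (Finset.mem_image_of_mem _ (Finset.mem_univ j))
  have hN0' : (N : ℂ) ≠ 0 := by exact_mod_cast hN0
  let κ : Fin d → 𝓞 K := fun j => ⟨N • k j, hN' j⟩
  have hκ : ∀ j, (((κ j : 𝓞 K) : K) : ℂ) = (N : ℂ) * (k j : ℂ) := by
    intro j
    show (((N • k j : K)) : ℂ) = _
    rw [zsmul_eq_mul]; push_cast; rfl
  set B : ℝ := 1 + ∑ s : K →ₐ[ℚ] ℂ, ∑ j, ‖s ((κ j : 𝓞 K) : K)‖ with hB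
  have hB1 : 1 ≤ B := by
    rw [hB]
    have : 0 ≤ ∑ s : K →ₐ[ℚ] ℂ, ∑ j, ‖s ((κ j : 𝓞 K) : K)‖ := by positivity
    linarith
  set C : ℝ := (2 * B) ^ d with hC
  have hC1 : 1 ≤ C := one_le_pow₀ (by linarith)
  obtain ⟨c₁, hc₁, hmain⟩ := hA K K.subtype
    (fun w => ⟨⟨conj (w : ℂ), hconj _ w.2⟩, rfl⟩)
    (by obtain ⟨w, hw, hw2⟩ := him; exact ⟨⟨w, hw⟩, hw2⟩)
  obtain ⟨A, hA0, hlog⟩ := log_compare C hC1
  refine ⟨c₁ / A, by positivity, ?_⟩
  intro H hH x₀ t P hP hbox
  have hH' : (1 : ℝ) ≤ H := by exact_mod_cast hH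
  have hn : (2 : ℝ) ≤ P.card := by exact_mod_cast hP
  have hn0 : (0 : ℝ) < P.card := by linarith
  have hHd : (0 : ℝ) < (H : ℝ) ^ d := by positivity
  have h1 := hmain (t * z / N) (C * (H : ℝ) ^ d) P hP (by
    intro x hx y hy
    obtain ⟨a, ha, hax⟩ := hbox x hx
    obtain ⟨b, hb, hby⟩ := hbox y hy
    have hsum : (((∑ j, ((a j - b j : ℤ) : 𝓞 K) * κ j : 𝓞 K)) : K) =
        ∑ j, ((a j - b j : ℤ) : K) * ((κ j : 𝓞 K) : K) := by
      rw [RingOfIntegers.coe_eq_algebraMap, map_sum]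
      refine Finset.sum_congr rfl fun j _ => ?_
      rw [map_mul, map_intCast]
    refine ⟨∑ j, ((a j - b j : ℤ) : 𝓞 K) * κ j, ?_, ?_⟩
    · have e1 : K.subtype (((∑ j, ((a j - b j : ℤ) : 𝓞 K) * κ j : 𝓞 K)) : K) =
          ∑ j, ((a j - b j : ℤ) : ℂ) * ((N : ℂ) * (k j : ℂ)) := by
        rw [hsum, map_sum]
        refine Finset.sum_congr rfl fun j _ => ?_
        rw [map_mul, map_intCast]
        congr 1
        exact hκ j
      rw [e1, hax, hby]
      have e2 : ∀ j, (a j : ℂ) * v j - (b j : ℂ) * v j =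
          z / N * (((a j - b j : ℤ) : ℂ) * ((N : ℂ) * (k j : ℂ))) := by
        intro j
        rw [hk j]; push_cast; field_simp
      have e3 : (∑ j, (a j : ℂ) * v j) - ∑ j, (b j : ℂ) * v j =
          z / N * ∑ j, ((a j - b j : ℤ) : ℂ) * ((N : ℂ) * (k j : ℂ)) := by
        rw [← Finset.sum_sub_distrib, Finset.mul_sum]
        exact Finset.sum_congr rfl fun j _ => e2 j
      linear_combination t * e3
    · have e4 : ∀ s : K →ₐ[ℚ] ℂ, ‖s (((∑ j, ((a j - b j : ℤ) : 𝓞 K) * κ j : 𝓞 K)) : K)‖ ≤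
          2 * B * H := by
        intro s
        rw [hsum, map_sum]
        refine (norm_sum_le _ _).trans ?_
        have e5 : ∀ j ∈ Finset.univ, ‖s (((a j - b j : ℤ) : K) * ((κ j : 𝓞 K) : K))‖ ≤
            2 * H * ‖s ((κ j : 𝓞 K) : K)‖ := by
          intro j _
          rw [map_mul, map_intCast, norm_mul]
          apply mul_le_mul_of_nonneg_right _ (norm_nonneg _)
          rw [Complex.norm_intCast]
          have e6 : |a j - b j| ≤ 2 * (H : ℤ) := by
            have := abs_sub (a j) (b j)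
            have h1 := ha j
            have h2 := hb j
            omega
          exact_mod_cast e6
        refine (Finset.sum_le_sum e5).trans ?_
        rw [← Finset.mul_sum]
        have e7 : ∑ j, ‖s ((κ j : 𝓞 K) : K)‖ ≤ B := by
          have := Finset.single_le_sum (f := fun s : K →ₐ[ℚ] ℂ => ∑ j, ‖s ((κ j : 𝓞 K) : K)‖)
            (fun _ _ => by positivity) (Finset.mem_univ s)
          rw [hB]; linarith
        nlinarith
      have e8 := abs_norm_le _ _ e4
      rw [hrank] at e8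
      refine e8.trans (le_of_eq ?_)
      rw [hC, mul_pow])
  have h2 := hlog P.card ((H : ℝ) ^ d) hP hHd
  set R := √(Real.log (2 + C * (H : ℝ) ^ d / P.card) * Real.log (2 * P.card + C * (H : ℝ) ^ d)) with hR
  set R' := √(Real.log (2 + (H : ℝ) ^ d / P.card) * Real.log (2 * P.card + (H : ℝ) ^ d)) with hR'
  have hR0 : 0 < R := by
    rw [hR]
    apply Real.sqrt_pos.2
    apply mul_pos
    · apply Real.log_pos
      have : 0 < C * (H : ℝ) ^ d / P.card := by positivity
      linarith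
    · apply Real.log_pos
      have : 0 < C * (H : ℝ) ^ d := by positivity
      linarith
  have hR0' : 0 < R' := by
    rw [hR']
    apply Real.sqrt_pos.2
    apply mul_pos
    · apply Real.log_pos
      have : 0 < (H : ℝ) ^ d / P.card := by positivity
      linarith
    · apply Real.log_pos
      linarith
  refine le_trans ?_ h1
  rw [mul_one_div, div_le_div_iff₀ hR0' hR0]
  have h5 : c₁ / A * (P.card : ℝ) ^ 2 * R ≤ c₁ / A * (P.card : ℝ) ^ 2 * (A * R') := by gcongr
  refine h5.trans (le_of_eq ?_)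
  field_simp

/-- all generalised arithmetic progressions -/
theorem gap_all (hA : ThmA) (d : ℕ) (v : Fin d → ℂ) (hv : LinearIndependent ℚ v) :
    ∃ c : ℝ, 0 < c ∧ ∀ H : ℕ, 1 ≤ H → ∀ (x₀ t : ℂ) (P : Finset ℂ), 2 ≤ P.card →
      (∀ y ∈ P, ∃ a : Fin d → ℤ, (∀ j, |a j| ≤ (H : ℤ)) ∧
        y = x₀ + t * ∑ j, (a j : ℂ) * v j) →
      c * (P.card : ℝ) ^ 2 * min ((P.card : ℝ) / (H : ℝ) ^ d)
          (1 / √(Real.log (2 + (H : ℝ) ^ d / P.card) * Real.log (2 * P.card + (H : ℝ) ^ d))) ≤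
        ∑ x ∈ P, ((((P.erase x).image (fun y => dist x y)).card : ℕ) : ℝ) := by
  classical
  by_cases hex : Pool.Agent.GAPD.NoField v
  · obtain ⟨c, hc, h⟩ := Pool.Agent.GAPD.gap_pinned v hv hex
    refine ⟨c, hc, ?_⟩
    intro H hH x₀ t P hP hbox
    have hn : (2 : ℝ) ≤ P.card := by exact_mod_cast hP
    have hHd : (0 : ℝ) < (H : ℝ) ^ d := by
      have : (1 : ℝ) ≤ H := by exact_mod_cast hH
      positivity
    have h1 : ∀ x ∈ P, c * (P.card : ℝ) ^ 2 / (H : ℝ) ^ d ≤
        ((((P.erase x).image (fun y => dist x y)).card : ℕ) : ℝ) := by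
      intro x hx
      refine h H hH x₀ t x P hP ?_
      intro y hy
      rw [Finset.insert_eq_of_mem hx] at hy
      obtain ⟨a, ha, hay⟩ := hbox y hy
      exact ⟨a, (Pool.Agent.GAPD.nn_le_iff a H).2 ha, hay⟩
    have h2 := Finset.sum_le_sum h1
    rw [Finset.sum_const, nsmul_eq_mul] at h2
    refine le_trans ?_ h2
    calc c * (P.card : ℝ) ^ 2 * min ((P.card : ℝ) / (H : ℝ) ^ d)
          (1 / √(Real.log (2 + (H : ℝ) ^ d / P.card) * Real.log (2 * P.card + (H : ℝ) ^ d)))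
        ≤ c * (P.card : ℝ) ^ 2 * ((P.card : ℝ) / (H : ℝ) ^ d) :=
          mul_le_mul_of_nonneg_left (min_le_left _ _) (by positivity)
      _ = (P.card : ℝ) * (c * (P.card : ℝ) ^ 2 / (H : ℝ) ^ d) := by ring
  · unfold Pool.Agent.GAPD.NoField at hex
    push Not at hex
    obtain ⟨K, z, hconj, him, hV⟩ := hex
    by_cases hz : z = 0
    · refine ⟨1, one_pos, ?_⟩
      intro H hH x₀ t P hP hbox
      exfalso
      have hv0 : ∀ j, v j = 0 := by
        intro j
        have h1 : v j ∈ (Pool.Agent.GAPD.VV v : Set ℂ) := Submodule.subset_span ⟨j, rfl⟩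
        rw [hV] at h1
        obtain ⟨w, -, hw⟩ := h1
        rw [← hw, hz]
        simp
      obtain ⟨y, hy, y', hy', hne⟩ := Finset.one_lt_card.1 (by omega : 1 < P.card)
      obtain ⟨a, -, ha⟩ := hbox y hy
      obtain ⟨a', -, ha'⟩ := hbox y' hy'
      apply hne
      rw [ha, ha']
      simp [hv0]
    · obtain ⟨c, hc, h⟩ := gap_field hA d v hv K z hconj him hz hV
      refine ⟨c, hc, fun H hH x₀ t P hP hbox => le_trans ?_ (h H hH x₀ t P hP hbox)⟩
      exact mul_le_mul_of_nonneg_left (min_le_right _ _) (by positivity)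

end Pool.Agent.CMD
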