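import Pool.Agent.CMD.Defs

/-!
CMD / High: prime ideals over a rational prime; the contribution of the higher degrees and of the
powers is bounded.
-/

set_option autoImplicit false

namespace Pool.Agent.CMD

open NumberField Finset

section
variable (K : Type*) [Field K] [NumberField K]

omit [NumberField K] in
private theorem nat_mem (P : Ideal (𝓞 K)) (h1 : P.IsPrime) (n : ℕ) :
    n ≠ 0 → ((n : ℕ) : 𝓞 K) ∈ P → ∃ q : ℕ, q.Prime ∧ ((q : ℕ) : 𝓞 K) ∈ P := by
  induction n using Nat.strong_induction_on with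
  | _ n ih =>
    intro hn hm
    by_cases hn1 : n = 1
    · exfalso
      rw [hn1, Nat.cast_one] at hm
      exact h1.ne_top ((Ideal.eq_top_iff_one P).2 hm)
    · have hq := Nat.minFac_prime hn1
      obtain ⟨m, hm2⟩ := Nat.minFac_dvd n
      have hm0 : m ≠ 0 := by
        rintro rfl
        exact hn (by rw [hm2, mul_zero])
      rw [hm2, Nat.cast_mul] at hm
      rcases h1.mem_or_mem hm with h | h
      · exact ⟨_, hq, h⟩
      · refine ih m ?_ hm0 h
        rw [hm2]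
        have := hq.two_le
        have h3 : 0 < m := Nat.pos_of_ne_zero hm0
        nlinarith

private theorem over_q (P : Ideal (𝓞 K)) (h1 : P.IsPrime) (q : ℕ) (hq : q.Prime)
    (hP : ((q : ℕ) : 𝓞 K) ∈ P) : ∃ f : ℕ, 1 ≤ f ∧ Ideal.absNorm P = q ^ f := by
  have h2 : P ∣ Ideal.span {((q : ℕ) : 𝓞 K)} := Ideal.dvd_span_singleton.2 hP
  have h3 := map_dvd Ideal.absNorm h2
  rw [Ideal.absNorm_span_natCast] at h3
  obtain ⟨f, -, hf⟩ := (Nat.dvd_prime_pow hq).1 h3
  refine ⟨f, ?_, hf⟩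
  rcases Nat.eq_zero_or_pos f with h | h
  · exfalso
    rw [h, pow_zero] at hf
    exact h1.ne_top (Ideal.absNorm_eq_one_iff.1 hf)
  · exact h

/-- A nonzero prime ideal contains a rational prime, and its norm is a power of it. -/
private theorem over_ex (P : Ideal (𝓞 K)) (h1 : P.IsPrime) (h0 : P ≠ ⊥) :
    (Ideal.absNorm P).minFac.Prime ∧ (((Ideal.absNorm P).minFac : ℕ) : 𝓞 K) ∈ P ∧
      ∃ f : ℕ, 1 ≤ f ∧ Ideal.absNorm P = (Ideal.absNorm P).minFac ^ f := by
  have hm := Ideal.absNorm_mem P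
  have hn0 : Ideal.absNorm P ≠ 0 := fun h => h0 (Ideal.absNorm_eq_zero_iff.1 h)
  obtain ⟨q, hq, hqP⟩ := nat_mem K P h1 _ hn0 hm
  obtain ⟨f, hf, hn⟩ := over_q K P h1 q hq hqP
  have h2 : (Ideal.absNorm P).minFac = q := by
    rw [hn]
    exact hq.pow_minFac (by omega)
  rw [h2]
  exact ⟨hq, hqP, f, hf, hn⟩

private theorem card_over (q : ℕ) (hq : q.Prime) (S : Finset (Ideal (𝓞 K)))
    (hS : ∀ P ∈ S, P.IsPrime ∧ P ≠ ⊥ ∧ ((q : ℕ) : 𝓞 K) ∈ P) :
    S.card ≤ Module.finrank ℚ K := by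
  have h1 : ∏ P ∈ S, P ∣ Ideal.span {((q : ℕ) : 𝓞 K)} := by
    apply Finset.prod_primes_dvd
    · intro P hP
      exact Ideal.prime_of_isPrime (hS P hP).2.1 (hS P hP).1
    · intro P hP
      rw [Ideal.dvd_span_singleton]
      exact (hS P hP).2.2
  have h2 := map_dvd Ideal.absNorm h1
  rw [map_prod, Ideal.absNorm_span_natCast, RingOfIntegers.rank] at h2
  have h3 : q ^ S.card ∣ ∏ P ∈ S, Ideal.absNorm P := by
    rw [← Finset.prod_const]
    apply Finset.prod_dvd_prod_of_dvd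
    intro P hP
    obtain ⟨f, hf, hn⟩ := over_q K P (hS P hP).1 q hq (hS P hP).2.2
    rw [hn]
    exact dvd_pow_self q (by omega)
  exact (Nat.pow_dvd_pow_iff_le_right hq.one_lt).1 (h3.trans h2)

private theorem card_minFac (q : ℕ) (S : Finset (Ideal (𝓞 K)))
    (hS : ∀ P ∈ S, P.IsPrime ∧ P ≠ ⊥ ∧ (Ideal.absNorm P).minFac = q) :
    S.card ≤ Module.finrank ℚ K := by
  rcases S.eq_empty_or_nonempty with h | ⟨P₀, h⟩
  · rw [h, Finset.card_empty]
    exact Nat.zero_le _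
  · have h0 := hS P₀ h
    have h1 := over_ex K P₀ h0.1 h0.2.1
    rw [h0.2.2] at h1
    apply card_over K q h1.1 S
    intro P hP
    have h2 := hS P hP
    have h3 := over_ex K P h2.1 h2.2.1
    rw [h2.2.2] at h3
    exact ⟨h2.1, h2.2.1, h3.2.1⟩

theorem card_PN_le (n : ℕ) : (PN K n).card ≤ Module.finrank ℚ K := by
  apply card_minFac K n.minFac
  intro P hP
  rw [mem_PN] at hP
  exact ⟨hP.1, hP.2.1, by rw [hP.2.2]⟩

theorem wsqK (N : ℕ) : ∑ k ∈ Icc 1 N, wK K k * k ≤ (Module.finrank ℚ K : ℝ) * N ^ 2 := by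
  have h1 := Chebyshev.theta_le_log4_mul_x (x := (N : ℝ)) (Nat.cast_nonneg N)
  have h2 : Chebyshev.theta (N : ℝ) = ∑ p ∈ Icc 1 N, (if p.Prime then Real.log p else 0) := by
    rw [Chebyshev.theta, Nat.floor_natCast, Finset.sum_filter]
    rfl
  rw [h2] at h1
  have hl4 : Real.log 4 ≤ 2 := by
    have h3 : Real.log 4 = 2 * Real.log 2 := by
      rw [show (4 : ℝ) = 2 ^ 2 by norm_num, Real.log_pow]
      norm_num
    have h4 := Real.log_two_lt_d9
    linarith
  have h5 : ∀ k ∈ Icc 1 N, wK K k * k ≤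
      ((Module.finrank ℚ K : ℝ) / 2 * N) * (if k.Prime then Real.log k else 0) := by
    intro k hk
    rw [Finset.mem_Icc] at hk
    unfold wK
    by_cases hp : k.Prime
    · rw [if_pos hp, if_pos hp]
      have h6 : ((PN K k).card : ℝ) ≤ Module.finrank ℚ K := by exact_mod_cast card_PN_le K k
      have h7 : (k : ℝ) ≤ N := by exact_mod_cast hk.2
      have h8 : 0 ≤ Real.log k := Real.log_natCast_nonneg k
      have h9 : ((PN K k).card : ℝ) / 2 * k ≤ (Module.finrank ℚ K : ℝ) / 2 * N :=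
        mul_le_mul (by linarith) h7 (Nat.cast_nonneg _) (by positivity)
      calc ((PN K k).card : ℝ) / 2 * Real.log k * k
          = (((PN K k).card : ℝ) / 2 * k) * Real.log k := by ring
        _ ≤ _ := mul_le_mul_of_nonneg_right h9 h8
    · rw [if_neg hp, if_neg hp]
      simp
  refine (Finset.sum_le_sum h5).trans ?_
  rw [← Finset.mul_sum]
  have h10 : (0 : ℝ) ≤ (Module.finrank ℚ K : ℝ) / 2 * N := by positivity
  calc (Module.finrank ℚ K : ℝ) / 2 * N * ∑ k ∈ Icc 1 N, (if k.Prime then Real.log k else 0)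
      ≤ (Module.finrank ℚ K : ℝ) / 2 * N * (Real.log 4 * N) := mul_le_mul_of_nonneg_left h1 h10
    _ ≤ (Module.finrank ℚ K : ℝ) / 2 * N * (2 * N) := by
        apply mul_le_mul_of_nonneg_left _ h10
        exact mul_le_mul_of_nonneg_right hl4 (Nat.cast_nonneg _)
    _ = _ := by ring

private theorem geo_a (x : ℝ) (hx : 2 ≤ x) (X : ℕ) :
    ∑ k ∈ Icc 1 X, 1 / x ^ k ≤ 2 / x - 2 / x ^ (X + 1) := by
  induction X with
  | zero => simp
  | succ X ih =>
    rw [Finset.sum_Icc_succ_top (by omega)]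
    have hx0 : 0 < x := by linarith
    have h1 : 1 / x ^ (X + 1) + 2 / x ^ (X + 1 + 1) ≤ 2 / x ^ (X + 1) := by
      have h2 : 2 / x ^ (X + 1 + 1) = (2 / x) * (1 / x ^ (X + 1)) := by
        rw [pow_succ x (X + 1)]
        field_simp
      have h3 : 2 / x ≤ 1 := by
        rw [div_le_one hx0]
        exact hx
      have h4 : 0 < 1 / x ^ (X + 1) := by positivity
      rw [h2, show 2 / x ^ (X + 1) = 2 * (1 / x ^ (X + 1)) by ring]
      nlinarith
    linarith

private theorem geo_b (x : ℝ) (hx : 2 ≤ x) (X : ℕ) :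
    ∑ k ∈ Icc 1 (X + 1), (if k = 1 then 0 else 1 / x ^ k) ≤ 2 / x ^ 2 - 2 / x ^ (X + 2) := by
  induction X with
  | zero => simp
  | succ X ih =>
    rw [Finset.sum_Icc_succ_top (by omega), if_neg (by omega)]
    have hx0 : 0 < x := by linarith
    have h1 : 1 / x ^ (X + 1 + 1) + 2 / x ^ (X + 1 + 2) ≤ 2 / x ^ (X + 2) := by
      have h2 : 2 / x ^ (X + 1 + 2) = (2 / x) * (1 / x ^ (X + 2)) := by
        rw [show X + 1 + 2 = (X + 2) + 1 by ring, pow_succ x (X + 2)]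
        field_simp
      have h3 : 2 / x ≤ 1 := by
        rw [div_le_one hx0]
        exact hx
      have h4 : 0 < 1 / x ^ (X + 2) := by positivity
      rw [h2, show 2 / x ^ (X + 2) = 2 * (1 / x ^ (X + 2)) by ring, show X + 1 + 1 = X + 2 by ring]
      nlinarith
    linarith

/-- The total contribution of one prime ideal of norm `n = q ^ f`. -/
private theorem one_P (n q f X : ℕ) (hq : q.Prime) (hf : 1 ≤ f) (hn : n = q ^ f) :
    ∑ k ∈ Icc 1 X, (if n.Prime ∧ k = 1 then 0 else Real.log n / (n : ℝ) ^ k) ≤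
      8 * (q : ℝ) ^ (-(3 / 2) : ℝ) := by
  have hq2 : (2 : ℝ) ≤ q := by exact_mod_cast hq.two_le
  have hq0 : (0 : ℝ) < q := by linarith
  have hnq : q ≤ n := by
    rw [hn]
    exact Nat.le_self_pow (by omega) q
  have hnq' : (q : ℝ) ≤ n := by exact_mod_cast hnq
  have hn2 : (2 : ℝ) ≤ n := by linarith
  have hn0 : (0 : ℝ) < n := by linarith
  have hlog : 0 ≤ Real.log n := Real.log_natCast_nonneg n
  by_cases hp : n.Prime
  · have hnq2 : n = q := by
      have h1 := (Nat.prime_dvd_prime_iff_eq hq hp).1 (by rw [hn]; exact dvd_pow_self q (by omega))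
      exact h1.symm
    have h2 : ∀ k ∈ Icc 1 X, (if n.Prime ∧ k = 1 then 0 else Real.log n / (n : ℝ) ^ k)
        = Real.log n * (if k = 1 then 0 else 1 / (n : ℝ) ^ k) := by
      intro k _
      by_cases hk : k = 1
      · rw [if_pos ⟨hp, hk⟩, if_pos hk, mul_zero]
      · rw [if_neg (fun h => hk h.2), if_neg hk]
        ring
    rw [Finset.sum_congr rfl h2, ← Finset.mul_sum]
    have h3 : ∑ k ∈ Icc 1 X, (if k = 1 then 0 else 1 / (n : ℝ) ^ k) ≤ 2 / (n : ℝ) ^ 2 := by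
      rcases X with _ | X
      · simp only [Finset.Icc_eq_empty_of_lt (show 0 < 1 by norm_num), Finset.sum_empty]
        positivity
      · have h4 := geo_b (n : ℝ) hn2 X
        have h5 : 0 < 2 / (n : ℝ) ^ (X + 2) := by positivity
        linarith
    have h6 : Real.log n ≤ (n : ℝ) ^ (1 / 2 : ℝ) / (1 / 2) :=
      Real.log_le_rpow_div hn0.le (by norm_num)
    calc Real.log n * ∑ k ∈ Icc 1 X, (if k = 1 then 0 else 1 / (n : ℝ) ^ k)
        ≤ ((n : ℝ) ^ (1 / 2 : ℝ) / (1 / 2)) * (2 / (n : ℝ) ^ 2) :=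
          mul_le_mul h6 h3 (Finset.sum_nonneg (fun k _ => by split_ifs <;> positivity))
            (by positivity)
      _ = 4 * ((n : ℝ) ^ (1 / 2 : ℝ) / (n : ℝ) ^ 2) := by ring
      _ = 4 * (n : ℝ) ^ (-(3 / 2) : ℝ) := by
          congr 1
          rw [← Real.rpow_natCast (n : ℝ) 2, ← Real.rpow_sub hn0]
          norm_num
      _ ≤ 8 * (q : ℝ) ^ (-(3 / 2) : ℝ) := by
          rw [hnq2]
          have := Real.rpow_pos_of_pos hq0 (-(3 / 2) : ℝ)
          linarith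
  · have hf2 : 2 ≤ f := by
      by_contra h
      have h1 : f = 1 := by omega
      rw [h1, pow_one] at hn
      exact hp (hn ▸ hq)
    have hq2n : (q : ℝ) ^ 2 ≤ n := by
      have h1 : q ^ 2 ≤ n := by
        rw [hn]
        exact Nat.pow_le_pow_right hq.pos hf2
      exact_mod_cast h1
    have h2 : ∀ k ∈ Icc 1 X, (if n.Prime ∧ k = 1 then 0 else Real.log n / (n : ℝ) ^ k)
        = Real.log n * (1 / (n : ℝ) ^ k) := by
      intro k _
      rw [if_neg (fun h => hp h.1)]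
      ring
    rw [Finset.sum_congr rfl h2, ← Finset.mul_sum]
    have h3 : ∑ k ∈ Icc 1 X, 1 / (n : ℝ) ^ k ≤ 2 / (n : ℝ) := by
      have h4 := geo_a (n : ℝ) hn2 X
      have h5 : 0 < 2 / (n : ℝ) ^ (X + 1) := by positivity
      linarith
    have h6 : Real.log n ≤ (n : ℝ) ^ (1 / 4 : ℝ) / (1 / 4) :=
      Real.log_le_rpow_div hn0.le (by norm_num)
    calc Real.log n * ∑ k ∈ Icc 1 X, 1 / (n : ℝ) ^ k
        ≤ ((n : ℝ) ^ (1 / 4 : ℝ) / (1 / 4)) * (2 / (n : ℝ)) :=
          mul_le_mul h6 h3 (Finset.sum_nonneg (fun k _ => by positivity)) (by positivity)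
      _ = 8 * ((n : ℝ) ^ (1 / 4 : ℝ) / (n : ℝ)) := by ring
      _ = 8 * (n : ℝ) ^ (-(3 / 4) : ℝ) := by
          congr 1
          nth_rw 2 [← Real.rpow_one (n : ℝ)]
          rw [← Real.rpow_sub hn0]
          norm_num
      _ ≤ 8 * ((q : ℝ) ^ 2) ^ (-(3 / 4) : ℝ) := by
          apply mul_le_mul_of_nonneg_left _ (by norm_num)
          exact Real.rpow_le_rpow_of_nonpos (by positivity) hq2n (by norm_num)
      _ = 8 * (q : ℝ) ^ (-(3 / 2) : ℝ) := by
          congr 1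
          rw [← Real.rpow_natCast (q : ℝ) 2, ← Real.rpow_mul hq0.le]
          norm_num

theorem higher : ∃ C : ℝ, 0 < C ∧ ∀ X : ℕ,
    ∑ P ∈ PP K X, ∑ k ∈ Icc 1 X, (if (Ideal.absNorm P).Prime ∧ k = 1 then 0 else
      Real.log (Ideal.absNorm P) / (Ideal.absNorm P : ℝ) ^ k) ≤ C := by
  have hsum : Summable (fun n : ℕ => (n : ℝ) ^ (-(3 / 2) : ℝ)) :=
    Real.summable_nat_rpow.2 (by norm_num)
  have hnn : ∀ n : ℕ, 0 ≤ (n : ℝ) ^ (-(3 / 2) : ℝ) := fun n => Real.rpow_nonneg (Nat.cast_nonneg n) _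
  have hts : 0 ≤ ∑' n : ℕ, (n : ℝ) ^ (-(3 / 2) : ℝ) := tsum_nonneg hnn
  refine ⟨8 * (Module.finrank ℚ K : ℝ) * (∑' n : ℕ, (n : ℝ) ^ (-(3 / 2) : ℝ)) + 1, by positivity, ?_⟩
  intro X
  have h1 : ∀ P ∈ PP K X, ∑ k ∈ Icc 1 X, (if (Ideal.absNorm P).Prime ∧ k = 1 then 0 else
      Real.log (Ideal.absNorm P) / (Ideal.absNorm P : ℝ) ^ k) ≤
      8 * (((Ideal.absNorm P).minFac : ℕ) : ℝ) ^ (-(3 / 2) : ℝ) := by
    intro P hP
    rw [mem_PP] at hP
    obtain ⟨hq, -, f, hf, hn⟩ := over_ex K P hP.2.1 hP.2.2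
    exact one_P (Ideal.absNorm P) _ f X hq hf hn
  refine (Finset.sum_le_sum h1).trans ?_
  classical
  have hmap : ∀ P ∈ PP K X, (Ideal.absNorm P).minFac ∈ Finset.range (X + 1) := by
    intro P hP
    rw [mem_PP] at hP
    rw [Finset.mem_range]
    have hn0 : Ideal.absNorm P ≠ 0 := fun h => hP.2.2 (Ideal.absNorm_eq_zero_iff.1 h)
    have h2 := Nat.minFac_le (Nat.pos_of_ne_zero hn0)
    omega
  rw [← Finset.sum_fiberwise_of_maps_to hmap]
  have h2 : ∀ q ∈ Finset.range (X + 1),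
      ∑ P ∈ (PP K X).filter (fun P => (Ideal.absNorm P).minFac = q),
        8 * (((Ideal.absNorm P).minFac : ℕ) : ℝ) ^ (-(3 / 2) : ℝ) ≤
      8 * (Module.finrank ℚ K : ℝ) * (q : ℝ) ^ (-(3 / 2) : ℝ) := by
    intro q _
    have h3 : ∀ P ∈ (PP K X).filter (fun P => (Ideal.absNorm P).minFac = q),
        8 * (((Ideal.absNorm P).minFac : ℕ) : ℝ) ^ (-(3 / 2) : ℝ) =
        8 * (q : ℝ) ^ (-(3 / 2) : ℝ) := by
      intro P hP
      rw [(Finset.mem_filter.1 hP).2]
    rw [Finset.sum_congr rfl h3, Finset.sum_const, nsmul_eq_mul]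
    have h4 : (((PP K X).filter (fun P => (Ideal.absNorm P).minFac = q)).card : ℝ) ≤
        Module.finrank ℚ K := by
      have h5 := card_minFac K q ((PP K X).filter (fun P => (Ideal.absNorm P).minFac = q))
        (fun P hP => by
          rw [Finset.mem_filter, mem_PP] at hP
          exact ⟨hP.1.2.1, hP.1.2.2, hP.2⟩)
      exact_mod_cast h5
    have h6 := mul_le_mul_of_nonneg_right h4 (show 0 ≤ 8 * (q : ℝ) ^ (-(3 / 2) : ℝ) by
      have := hnn q
      positivity)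
    linarith
  refine (Finset.sum_le_sum h2).trans ?_
  rw [← Finset.mul_sum]
  have h7 := hsum.sum_le_tsum (Finset.range (X + 1)) (fun n _ => hnn n)
  have h8 : (0 : ℝ) ≤ 8 * (Module.finrank ℚ K : ℝ) := by positivity
  have h9 := mul_le_mul_of_nonneg_left h7 h8
  linarith

end

end Pool.Agent.CMD
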