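import Pool.Agent.CMD.Cells

/-!
CMD / LogN: the sum of the logarithms of the norms of the integers in a cube.
-/

set_option autoImplicit false

namespace Pool.Agent.CMD

open NumberField Finset

section
variable (K : Type*) [Field K] [NumberField K]

private theorem norm_pos' (s : K →ₐ[ℚ] ℂ) {z : 𝓞 K} (hz : z ≠ 0) : 0 < ‖s (z : K)‖ := by
  refine norm_pos_iff.2 ?_
  intro h
  apply hz
  have h1 : (z : K) = 0 := (map_eq_zero_iff s s.toRingHom.injective).1 h
  exact RingOfIntegers.coe_eq_zero_iff.1 h1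

/-- number of points of the cube with one small coordinate -/
private theorem cnt_le
    (hcells : ∀ (Q : Ideal (𝓞 K)) (_ : Q ≠ ⊥) (S : Finset (𝓞 K))
      (_ : ∀ x ∈ S, ∀ y ∈ S, x - y ∈ Q) (a A : (K →ₐ[ℚ] ℂ) → ℝ) (_ : ∀ s, 0 ≤ A s)
      (_ : ∀ x ∈ S, ∀ s : K →ₐ[ℚ] ℂ, a s ≤ kap K s (x : K) ∧ kap K s (x : K) ≤ a s + A s),
      (S.card : ℝ) ≤ ∏ s : K →ₐ[ℚ] ℂ, (A s / sz K Q + 2))
    (H h : ℝ) (hH : 1 ≤ H) (hh : 1 ≤ h) (s : K →ₐ[ℚ] ℂ) :
    (((V K H).filter fun z : 𝓞 K => ‖s (z : K)‖ ≤ h).card : ℝ) ≤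
      6 * h * (4 * H) ^ (Module.finrank ℚ K - 1) := by
  classical
  have h1 := hcells ⊤ (by
      intro h0
      have : (1 : 𝓞 K) ∈ (⊥ : Ideal (𝓞 K)) := h0 ▸ Submodule.mem_top
      exact one_ne_zero (Ideal.mem_bot.1 this)) ((V K H).filter fun z : 𝓞 K => ‖s (z : K)‖ ≤ h)
    (fun _ _ _ _ => Submodule.mem_top)
    (fun s' => if s' = s then -(2 * h) else -H) (fun s' => if s' = s then 4 * h else 2 * H)
    (fun s' => by
      by_cases hs : s' = s
      · simp only [if_pos hs]; linarith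
      · simp only [if_neg hs]; linarith) ?_
  · refine h1.trans ?_
    rw [sz_top, ← Finset.mul_prod_erase Finset.univ _ (Finset.mem_univ s)]
    have h2 : ∏ s' ∈ Finset.univ.erase s, ((if s' = s then 4 * h else 2 * H) / 1 + 2) =
        (2 * H + 2) ^ (Module.finrank ℚ K - 1) := by
      rw [← card_emb K, ← Finset.card_univ, ← Finset.card_erase_of_mem (Finset.mem_univ s),
        ← Finset.prod_const]
      refine Finset.prod_congr rfl fun s' hs' => ?_
      rw [if_neg (Finset.ne_of_mem_erase hs'), div_one]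
    rw [h2, if_pos rfl, div_one]
    have h3 : (2 * H + 2) ^ (Module.finrank ℚ K - 1) ≤ (4 * H) ^ (Module.finrank ℚ K - 1) :=
      pow_le_pow_left₀ (by linarith) (by linarith) _
    exact mul_le_mul (by linarith) h3 (by positivity) (by positivity)
  · intro x hx s'
    obtain ⟨hxV, hxs⟩ := Finset.mem_filter.1 hx
    rw [mem_V] at hxV
    by_cases hs : s' = s
    · subst hs
      simp only [if_true]
      have h4 := abs_le.1 (abs_kap_le K s' (x : K))
      exact ⟨by linarith [h4.1], by linarith [h4.2]⟩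
    · simp only [if_neg hs]
      have h4 := abs_le.1 (hxV s')
      exact ⟨h4.1, by linarith [h4.2]⟩

/-- a dyadic bound of the logarithm -/
private theorem log_dyadic {H t : ℝ} (ht : 1 ≤ t) (htH : t ≤ H) :
    Real.log H - Real.log t ≤
      ∑ j ∈ Finset.range (Nat.log 2 ⌊H⌋₊ + 1), (if t ≤ H / 2 ^ j then Real.log 2 else 0) := by
  have ht0 : 0 < t := by linarith
  have hH0 : 0 < H := by linarith
  have hq : 1 ≤ H / t := (one_le_div ht0).2 htH
  set m : ℕ := Nat.log 2 ⌊H / t⌋₊ with hm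
  have hfl : ⌊H / t⌋₊ ≠ 0 := by
    have : 1 ≤ ⌊H / t⌋₊ := (Nat.one_le_floor_iff _).2 hq
    omega
  have h1 : (2 : ℝ) ^ m ≤ H / t := by
    have h2 : 2 ^ m ≤ ⌊H / t⌋₊ := Nat.pow_log_le_self 2 hfl
    calc (2 : ℝ) ^ m = ((2 ^ m : ℕ) : ℝ) := by push_cast; rfl
      _ ≤ (⌊H / t⌋₊ : ℝ) := by exact_mod_cast h2
      _ ≤ H / t := Nat.floor_le (by linarith)
  have h3 : H / t < 2 ^ (m + 1) := by
    have h4 : ⌊H / t⌋₊ < 2 ^ (m + 1) := Nat.lt_pow_succ_log_self (by norm_num) _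
    have h5 : (⌊H / t⌋₊ : ℝ) + 1 ≤ 2 ^ (m + 1) := by exact_mod_cast h4
    exact (Nat.lt_floor_add_one _).trans_le h5
  have hmJ : m < Nat.log 2 ⌊H⌋₊ + 1 := by
    refine Nat.lt_succ_of_le (Nat.log_mono_right (Nat.floor_le_floor ?_))
    exact div_le_self hH0.le ht
  have h6 : Real.log H - Real.log t ≤ (m + 1 : ℕ) * Real.log 2 := by
    rw [← Real.log_div hH0.ne' ht0.ne', ← Real.log_pow]
    exact Real.log_le_log (by positivity) h3.le
  refine h6.trans ?_
  have h7 : ∑ j ∈ Finset.range (m + 1), (if t ≤ H / 2 ^ j then Real.log 2 else 0) =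
      (m + 1 : ℕ) * Real.log 2 := by
    rw [← nsmul_eq_mul, ← Finset.card_range (m + 1), ← Finset.sum_const, Finset.card_range]
    refine Finset.sum_congr rfl fun j hj => if_pos ?_
    have hj' : j ≤ m := Nat.lt_succ_iff.1 (Finset.mem_range.1 hj)
    have h8 : (2 : ℝ) ^ j ≤ 2 ^ m := pow_le_pow_right₀ (by norm_num) hj'
    rw [le_div_iff₀ (by positivity), mul_comm]
    rw [le_div_iff₀ ht0] at h1
    nlinarith
  rw [← h7]
  refine Finset.sum_le_sum_of_subset_of_nonneg ?_ ?_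
  · intro j hj
    rw [Finset.mem_range] at hj ⊢
    omega
  · intro j _ _
    split_ifs
    · exact Real.log_nonneg (by norm_num)
    · exact le_rfl

/-- `lognorm` from the statement `cells` -/
theorem lognorm_of
    (hcells : ∀ (Q : Ideal (𝓞 K)) (_ : Q ≠ ⊥) (S : Finset (𝓞 K))
      (_ : ∀ x ∈ S, ∀ y ∈ S, x - y ∈ Q) (a A : (K →ₐ[ℚ] ℂ) → ℝ) (_ : ∀ s, 0 ≤ A s)
      (_ : ∀ x ∈ S, ∀ s : K →ₐ[ℚ] ℂ, a s ≤ kap K s (x : K) ∧ kap K s (x : K) ≤ a s + A s),
      (S.card : ℝ) ≤ ∏ s : K →ₐ[ℚ] ℂ, (A s / sz K Q + 2)) [DecidableEq (𝓞 K)] :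
    ∃ C : ℝ, 0 < C ∧ ∀ H : ℝ, 1 ≤ H →
    |∑ z ∈ (V K H).erase 0, Real.log (Ideal.absNorm (Ideal.span {z})) -
      ((V K H).card : ℝ) * (Module.finrank ℚ K * Real.log H)| ≤ C * H ^ Module.finrank ℚ K := by
  classical
  set d := Module.finrank ℚ K with hd
  have hd1 : 1 ≤ d := Module.finrank_pos (R := ℚ) (M := K)
  set C1 : ℝ := 6 * 4 ^ (d - 1) with hC1
  have hC1p : 0 < C1 := by positivity
  refine ⟨d * ((2 + d) * C1) + d, by positivity, ?_⟩
  intro H hH
  have hH0 : 0 < H := by linarith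
  have hlogH : 0 ≤ Real.log H := Real.log_nonneg hH
  have hlogH' : Real.log H ≤ H := (Real.log_le_sub_one_of_pos hH0).trans (by linarith)
  have hcnt : ∀ (s : K →ₐ[ℚ] ℂ) (h : ℝ), 1 ≤ h →
      (((V K H).filter fun z : 𝓞 K => ‖s (z : K)‖ ≤ h).card : ℝ) ≤ C1 * h * H ^ (d - 1) := by
    intro s h hh
    refine (cnt_le K hcells H h hH hh s).trans (le_of_eq ?_)
    rw [mul_pow, hC1]
    ring
  have hHd : H ^ d = H * H ^ (d - 1) := by
    rw [← pow_succ', Nat.sub_add_cancel hd1]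
  -- the terms
  have hterm : ∀ z ∈ (V K H).erase 0, Real.log (Ideal.absNorm (Ideal.span {z})) =
      d * Real.log H - ∑ s : K →ₐ[ℚ] ℂ, (Real.log H - Real.log ‖s (z : K)‖) := by
    intro z hz
    have hz0 := Finset.ne_of_mem_erase hz
    rw [absNorm_eq, Real.log_prod (fun s _ => (norm_pos' K s hz0).ne'), Finset.sum_sub_distrib,
      Finset.sum_const, Finset.card_univ, card_emb K, nsmul_eq_mul, ← hd]
    ring
  have hnn : ∀ z ∈ (V K H).erase 0, ∀ s : K →ₐ[ℚ] ℂ,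
      0 ≤ Real.log H - Real.log ‖s (z : K)‖ := by
    intro z hz s
    have hz0 := Finset.ne_of_mem_erase hz
    have hzV := (mem_V K H z).1 (Finset.mem_of_mem_erase hz)
    have := Real.log_le_log (norm_pos' K s hz0) (norm_le_of_kap K H s _ hzV)
    linarith
  have hbig : ∀ z ∈ (V K H).erase 0, ∀ s : K →ₐ[ℚ] ℂ,
      Real.log H - Real.log ‖s (z : K)‖ ≤ d * Real.log H := by
    intro z hz s
    have hz0 := Finset.ne_of_mem_erase hz
    have h1 : Real.log H - Real.log ‖s (z : K)‖ ≤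
        ∑ s : K →ₐ[ℚ] ℂ, (Real.log H - Real.log ‖s (z : K)‖) :=
      Finset.single_le_sum (f := fun s : K →ₐ[ℚ] ℂ => Real.log H - Real.log ‖s (z : K)‖)
        (fun s _ => hnn z hz s) (Finset.mem_univ s)
    have h2 := hterm z hz
    have h3 : 0 ≤ Real.log (Ideal.absNorm (Ideal.span {z})) := Real.log_natCast_nonneg _
    linarith
  have hpt : ∀ z ∈ (V K H).erase 0, ∀ s : K →ₐ[ℚ] ℂ, Real.log H - Real.log ‖s (z : K)‖ ≤
      ∑ j ∈ Finset.range (Nat.log 2 ⌊H⌋₊ + 1),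
        (if ‖s (z : K)‖ ≤ H / 2 ^ j then Real.log 2 else 0) +
      (if ‖s (z : K)‖ ≤ 1 then d * Real.log H else 0) := by
    intro z hz s
    have hzV := (mem_V K H z).1 (Finset.mem_of_mem_erase hz)
    have hs0 : 0 ≤ ∑ j ∈ Finset.range (Nat.log 2 ⌊H⌋₊ + 1),
        (if ‖s (z : K)‖ ≤ H / 2 ^ j then Real.log 2 else 0) := by
      refine Finset.sum_nonneg fun j _ => ?_
      split_ifs
      · exact Real.log_nonneg (by norm_num)
      · exact le_rfl
    by_cases h1 : ‖s (z : K)‖ ≤ 1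
    · rw [if_pos h1]
      linarith [hbig z hz s]
    · rw [if_neg h1, add_zero]
      exact log_dyadic (not_le.1 h1).le (norm_le_of_kap K H s _ hzV)
  -- sum over the points
  have hsum : ∀ s : K →ₐ[ℚ] ℂ, ∑ z ∈ (V K H).erase 0, (Real.log H - Real.log ‖s (z : K)‖) ≤
      (2 + d) * C1 * H ^ d := by
    intro s
    refine (Finset.sum_le_sum fun z hz => hpt z hz s).trans ?_
    rw [Finset.sum_add_distrib, Finset.sum_comm]
    have h1 : ∀ (P : 𝓞 K → Prop) (c : ℝ), 0 ≤ c →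
        ∑ z ∈ (V K H).erase 0, (if P z then c else 0) ≤ ((V K H).filter P).card * c := by
      intro P c hc
      rw [← Finset.sum_filter, Finset.sum_const, nsmul_eq_mul]
      refine mul_le_mul_of_nonneg_right ?_ hc
      exact_mod_cast Finset.card_le_card (Finset.filter_subset_filter _ (Finset.erase_subset _ _))
    have h2 : ∀ j ∈ Finset.range (Nat.log 2 ⌊H⌋₊ + 1),
        ∑ z ∈ (V K H).erase 0, (if ‖s (z : K)‖ ≤ H / 2 ^ j then Real.log 2 else 0) ≤
          C1 * H ^ d * (1 / 2) ^ j := by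
      intro j hj
      have hfl : ⌊H⌋₊ ≠ 0 := by
        have : 1 ≤ ⌊H⌋₊ := (Nat.one_le_floor_iff _).2 hH
        omega
      have h3 : (2 : ℝ) ^ j ≤ H := by
        have h4 : 2 ^ j ≤ ⌊H⌋₊ :=
          (Nat.pow_le_pow_right (by norm_num) (Nat.lt_succ_iff.1 (Finset.mem_range.1 hj))).trans
            (Nat.pow_log_le_self 2 hfl)
        calc (2 : ℝ) ^ j = ((2 ^ j : ℕ) : ℝ) := by push_cast; rfl
          _ ≤ (⌊H⌋₊ : ℝ) := by exact_mod_cast h4
          _ ≤ H := Nat.floor_le hH0.le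
      have h5 := h1 (fun z : 𝓞 K => ‖s (z : K)‖ ≤ H / 2 ^ j) (Real.log 2) (Real.log_nonneg (by norm_num))
      refine h5.trans ?_
      have h6 := hcnt s (H / 2 ^ j) ((one_le_div (by positivity)).2 h3)
      have hl2 : Real.log 2 ≤ 1 := by
        have := Real.log_two_lt_d9
        linarith
      have hl0 : 0 ≤ Real.log 2 := Real.log_nonneg (by norm_num)
      calc (((V K H).filter fun z : 𝓞 K => ‖s (z : K)‖ ≤ H / 2 ^ j).card : ℝ) * Real.log 2
          ≤ (C1 * (H / 2 ^ j) * H ^ (d - 1)) * 1 :=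
            mul_le_mul h6 hl2 hl0 (by positivity)
        _ = C1 * H ^ d * (1 / 2) ^ j := by
            rw [hHd, one_div, inv_pow]
            ring
    have h7 : ∑ j ∈ Finset.range (Nat.log 2 ⌊H⌋₊ + 1),
        ∑ z ∈ (V K H).erase 0, (if ‖s (z : K)‖ ≤ H / 2 ^ j then Real.log 2 else 0) ≤
          2 * C1 * H ^ d := by
      refine (Finset.sum_le_sum h2).trans ?_
      rw [← Finset.mul_sum]
      have h8 : ∑ j ∈ Finset.range (Nat.log 2 ⌊H⌋₊ + 1), (1 / 2 : ℝ) ^ j ≤ 2 := by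
        have h9 := Summable.sum_le_tsum (Finset.range (Nat.log 2 ⌊H⌋₊ + 1))
          (fun j _ => by positivity) (summable_geometric_two)
        rwa [tsum_geometric_two] at h9
      have h10 : 0 ≤ C1 * H ^ d := by positivity
      nlinarith [mul_le_mul_of_nonneg_left h8 h10]
    have h11 : ∑ z ∈ (V K H).erase 0, (if ‖s (z : K)‖ ≤ 1 then d * Real.log H else 0) ≤
        d * C1 * H ^ d := by
      refine (h1 (fun z : 𝓞 K => ‖s (z : K)‖ ≤ 1) (d * Real.log H) (by positivity)).trans ?_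
      have h12 := hcnt s 1 le_rfl
      calc (((V K H).filter fun z : 𝓞 K => ‖s (z : K)‖ ≤ 1).card : ℝ) * (d * Real.log H)
          ≤ (C1 * 1 * H ^ (d - 1)) * (d * H) :=
            mul_le_mul h12 (mul_le_mul_of_nonneg_left hlogH' (Nat.cast_nonneg d)) (by positivity)
              (by positivity)
        _ = d * C1 * H ^ d := by
            rw [hHd]
            ring
    calc _ ≤ 2 * C1 * H ^ d + d * C1 * H ^ d := add_le_add h7 h11
      _ = (2 + d) * C1 * H ^ d := by ring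
  -- conclusion
  have h0V : (0 : 𝓞 K) ∈ V K H := by
    rw [mem_V]
    intro s
    have : kap K s ((0 : 𝓞 K) : K) = 0 := by
      unfold kap
      simp
    rw [this, abs_zero]
    exact hH0.le
  have hcard : (((V K H).erase 0).card : ℝ) = (V K H).card - 1 := by
    rw [Finset.card_erase_of_mem h0V, Nat.cast_sub (Finset.card_pos.2 ⟨0, h0V⟩), Nat.cast_one]
  have hT : ∑ z ∈ (V K H).erase 0, Real.log (Ideal.absNorm (Ideal.span {z})) =
      ((V K H).card - 1) * (d * Real.log H) -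
        ∑ s : K →ₐ[ℚ] ℂ, ∑ z ∈ (V K H).erase 0, (Real.log H - Real.log ‖s (z : K)‖) := by
    rw [Finset.sum_congr rfl hterm, Finset.sum_sub_distrib, Finset.sum_const, nsmul_eq_mul, hcard,
      Finset.sum_comm]
  have hS1 : 0 ≤ ∑ s : K →ₐ[ℚ] ℂ, ∑ z ∈ (V K H).erase 0, (Real.log H - Real.log ‖s (z : K)‖) :=
    Finset.sum_nonneg fun s _ => Finset.sum_nonneg fun z hz => hnn z hz s
  have hS2 : ∑ s : K →ₐ[ℚ] ℂ, ∑ z ∈ (V K H).erase 0, (Real.log H - Real.log ‖s (z : K)‖) ≤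
      d * ((2 + d) * C1 * H ^ d) := by
    refine (Finset.sum_le_sum fun s _ => hsum s).trans (le_of_eq ?_)
    rw [Finset.sum_const, Finset.card_univ, card_emb K, nsmul_eq_mul]
  have hlast : d * Real.log H ≤ d * H ^ d := by
    refine mul_le_mul_of_nonneg_left (hlogH'.trans ?_) (Nat.cast_nonneg d)
    exact le_self_pow₀ hH (by omega)
  have hdl : 0 ≤ d * Real.log H := by positivity
  rw [hT, abs_le]
  constructor
  · nlinarith
  · have : 0 ≤ (d * ((2 + d) * C1) + d) * H ^ d := by positivity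
    nlinarith

open Classical in
theorem lognorm : ∃ C : ℝ, 0 < C ∧ ∀ H : ℝ, 1 ≤ H →
    |∑ z ∈ (V K H).erase 0, Real.log (Ideal.absNorm (Ideal.span {z})) -
      ((V K H).card : ℝ) * (Module.finrank ℚ K * Real.log H)| ≤ C * H ^ Module.finrank ℚ K :=
  lognorm_of K (fun Q hQ S hS a A hA h => cells K Q hQ S hS a A hA h)

end

end Pool.Agent.CMD
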