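import Pool.Agent.CMD.Defs

/-!
CMD / MertK: Mertens' theorem for the prime ideals of prime norm (assembly; helper81 for helper11)
-/

set_option autoImplicit false

namespace Pool.Agent.CMD

open NumberField Finset

section
variable (K : Type*) [Field K] [NumberField K]

/-- sums over the prime ideals of prime norm -/
theorem sum_prime_norm (N : ℕ) (g : ℕ → ℝ) :
    ∑ P ∈ (PP K N).filter (fun P => (Ideal.absNorm P).Prime), g (Ideal.absNorm P) =
      ∑ k ∈ Icc 1 N, if k.Prime then ((PN K k).card : ℝ) * g k else 0 := by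
  classical
  rw [← Finset.sum_fiberwise_of_maps_to (t := Icc 1 N) (g := fun P => Ideal.absNorm P)]
  · refine Finset.sum_congr rfl fun k hk => ?_
    rw [Finset.filter_filter]
    by_cases hkp : k.Prime
    · rw [if_pos hkp]
      have h1 : (PP K N).filter (fun P => (Ideal.absNorm P).Prime ∧ Ideal.absNorm P = k) =
          PN K k := by
        ext P
        rw [Finset.mem_filter, mem_PP, mem_PN]
        constructor
        · rintro ⟨⟨-, h1, h2⟩, -, h3⟩
          exact ⟨h1, h2, h3⟩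
        · rintro ⟨h1, h2, h3⟩
          refine ⟨⟨?_, h1, h2⟩, ?_, h3⟩
          · rw [h3]; exact (Finset.mem_Icc.1 hk).2
          · rw [h3]; exact hkp
      rw [h1, Finset.sum_congr rfl (g := fun _ => g k)]
      · rw [Finset.sum_const, nsmul_eq_mul]
      · intro P hP
        rw [((mem_PN K k P).1 hP).2.2]
    · rw [if_neg hkp]
      refine Finset.sum_eq_zero fun P hP => ?_
      obtain ⟨-, h2, h3⟩ := Finset.mem_filter.1 hP
      rw [h3] at h2
      exact absurd h2 hkp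
  · intro P hP
    obtain ⟨h1, h2⟩ := Finset.mem_filter.1 hP
    rw [Finset.mem_Icc]
    exact ⟨h2.one_lt.le, ((mem_PP K N P).1 h1).1⟩

theorem zero_mem_V (H : ℝ) (hH : 0 ≤ H) : (0 : 𝓞 K) ∈ V K H := by
  rw [mem_V]
  intro s
  have : kap K s ((0 : 𝓞 K) : K) = 0 := by simp [kap]
  rw [this, abs_zero]
  exact hH

theorem one_le_absNorm {P : Ideal (𝓞 K)} (hP : P ≠ ⊥) : 1 ≤ Ideal.absNorm P :=
  Nat.one_le_iff_ne_zero.2 fun h => hP (Ideal.absNorm_eq_zero_iff.1 h)

open Classical in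
/-- the sum of the logarithms of the norms through the prime ideals -/
theorem sum_log (hprod : ∀ (z : 𝓞 K), z ≠ 0 → ∀ X : ℕ, Ideal.absNorm (Ideal.span {z}) ≤ X →
      Real.log (Ideal.absNorm (Ideal.span {z})) =
      ∑ P ∈ PP K X, ∑ k ∈ Icc 1 X, if z ∈ P ^ k then Real.log (Ideal.absNorm P) else 0)
    (N : ℕ) (H : ℝ) (hH : 0 ≤ H) (hHN : H ^ Module.finrank ℚ K = N) :
    ∑ z ∈ (V K H).erase 0, Real.log (Ideal.absNorm (Ideal.span {z})) =
      ∑ P ∈ PP K N, ∑ k ∈ Icc 1 N,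
        Real.log (Ideal.absNorm P) * (((VI K H (P ^ k)).card : ℝ) - 1) := by
  have h1 : ∀ z ∈ (V K H).erase 0, Real.log (Ideal.absNorm (Ideal.span {z})) =
      ∑ P ∈ PP K N, ∑ k ∈ Icc 1 N, if z ∈ P ^ k then Real.log (Ideal.absNorm P) else 0 := by
    intro z hz
    obtain ⟨hz0, hzV⟩ := Finset.mem_erase.1 hz
    refine hprod z hz0 N ?_
    have h2 := absNorm_le K H z ((mem_V K H z).1 hzV)
    rw [hHN] at h2
    exact_mod_cast h2
  rw [Finset.sum_congr rfl h1, Finset.sum_comm]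
  refine Finset.sum_congr rfl fun P _ => ?_
  rw [Finset.sum_comm]
  refine Finset.sum_congr rfl fun k _ => ?_
  rw [← Finset.sum_filter, Finset.sum_const, nsmul_eq_mul, mul_comm]
  congr 1
  have h3 : ((V K H).erase 0).filter (fun z => z ∈ P ^ k) = (VI K H (P ^ k)).erase 0 := by
    ext z
    rw [Finset.mem_filter, Finset.mem_erase, Finset.mem_erase, mem_V, mem_VI]
    tauto
  rw [h3]
  have h4 : (0 : 𝓞 K) ∈ VI K H (P ^ k) := by
    rw [mem_VI]
    exact ⟨(mem_V K H 0).1 (zero_mem_V K H hH), Ideal.zero_mem _⟩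
  have h5 := Finset.card_erase_add_one h4
  have h6 : ((((VI K H (P ^ k)).erase 0).card : ℕ) : ℝ) + 1 = ((VI K H (P ^ k)).card : ℝ) := by
    exact_mod_cast h5
  linarith

open Classical in
theorem mertK_of (hd : 2 ≤ Module.finrank ℚ K)
    (hcheb1 : ∀ X : ℕ, ∑ p ∈ Icc 1 X, (if p.Prime then Real.log p else 0) ≤ Real.log 4 * X)
    (hcheb2 : ∀ d : ℕ, 2 ≤ d → ∃ C : ℝ, 0 < C ∧ ∀ X : ℕ,
      ∑ p ∈ Icc 1 X, (if p.Prime then Real.log p / ((p : ℝ) ^ (1 / (d : ℝ))) ^ (d - 1) else 0) ≤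
        C * (X : ℝ) ^ (1 / (d : ℝ)))
    (hcard : ∀ n : ℕ, (PN K n).card ≤ Module.finrank ℚ K)
    (hhigh : ∃ C : ℝ, 0 < C ∧ ∀ X : ℕ,
      ∑ P ∈ PP K X, ∑ k ∈ Icc 1 X, (if (Ideal.absNorm P).Prime ∧ k = 1 then 0 else
        Real.log (Ideal.absNorm P) / (Ideal.absNorm P : ℝ) ^ k) ≤ C)
    (hprod : ∀ (z : 𝓞 K), z ≠ 0 → ∀ X : ℕ, Ideal.absNorm (Ideal.span {z}) ≤ X →
      Real.log (Ideal.absNorm (Ideal.span {z})) =
      ∑ P ∈ PP K X, ∑ k ∈ Icc 1 X, if z ∈ P ^ k then Real.log (Ideal.absNorm P) else 0)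
    (hVlow : ∃ c : ℝ, 0 < c ∧ ∀ H : ℝ, 1 ≤ H →
      c * H ^ Module.finrank ℚ K ≤ ((V K H).card : ℝ))
    (hdiv : ∃ C : ℝ, 0 < C ∧ ∀ Q : Ideal (𝓞 K), Q ≠ ⊥ → ∀ H : ℝ, 1 ≤ H →
      ((VI K H Q).card : ℝ) ≤ 1 + C * H ^ Module.finrank ℚ K / Ideal.absNorm Q)
    (hequi : ∃ C : ℝ, 0 < C ∧ ∀ Q : Ideal (𝓞 K), Q ≠ ⊥ → ∀ H : ℝ, sz K Q ≤ H →
      |((VI K H Q).card : ℝ) - ((V K H).card : ℝ) / Ideal.absNorm Q| ≤
        C * (H / sz K Q) ^ (Module.finrank ℚ K - 1))
    (hlog : ∃ C : ℝ, 0 < C ∧ ∀ H : ℝ, 1 ≤ H →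
      |∑ z ∈ (V K H).erase 0, Real.log (Ideal.absNorm (Ideal.span {z})) -
        ((V K H).card : ℝ) * (Module.finrank ℚ K * Real.log H)| ≤ C * H ^ Module.finrank ℚ K) :
    ∃ C : ℝ, 0 ≤ C ∧ ∀ N : ℕ, 1 ≤ N →
      |∑ k ∈ Icc 1 N, wK K k / k - Real.log N / 2| ≤ C := by
  obtain ⟨C5, hC5, hcheb2⟩ := hcheb2 _ hd
  obtain ⟨C2, hC2, hhigh⟩ := hhigh
  obtain ⟨c0, hc0, hVlow⟩ := hVlow
  obtain ⟨C3, hC3, hdiv⟩ := hdiv
  obtain ⟨C4, hC4, hequi⟩ := hequi
  obtain ⟨C1, hC1, hlog⟩ := hlog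
  set d := Module.finrank ℚ K with hdef
  have hd0 : (0 : ℝ) < d := by
    have : 0 < d := by omega
    exact_mod_cast this
  set CT : ℝ := C1 + C3 * C2 + d * (C4 * C5 + Real.log 4) with hCT
  have hlog4 : 0 ≤ Real.log 4 := Real.log_nonneg (by norm_num)
  have hCT0 : 0 ≤ CT := by positivity
  refine ⟨CT / c0 / 2, by positivity, ?_⟩
  intro N hN
  have hNr : (1 : ℝ) ≤ N := by exact_mod_cast hN
  have hN0 : (0 : ℝ) < N := by linarith
  set H : ℝ := (N : ℝ) ^ (1 / (d : ℝ)) with hHdef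
  have hH1 : 1 ≤ H := Real.one_le_rpow hNr (by positivity)
  have hH0 : 0 < H := by linarith
  have hHd : H ^ d = N := by
    rw [hHdef, ← Real.rpow_natCast, ← Real.rpow_mul hN0.le, one_div,
      inv_mul_cancel₀ hd0.ne', Real.rpow_one]
  have hHlog : (d : ℝ) * Real.log H = Real.log N := by
    rw [← Real.log_pow, hHd]
  set n0 : ℝ := ((V K H).card : ℝ) with hn0
  have hn0low : c0 * N ≤ n0 := by
    have := hVlow H hH1
    rwa [hHd] at this
  have hn0pos : 0 < n0 := lt_of_lt_of_le (by positivity) hn0low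
  -- the terms
  set a : Ideal (𝓞 K) → ℕ → ℝ := fun P k =>
    Real.log (Ideal.absNorm P) * (((VI K H (P ^ k)).card : ℝ) - 1) with ha
  have hS := sum_log K hprod N H hH0.le hHd
  have hsplit : ∑ P ∈ PP K N, ∑ k ∈ Icc 1 N, a P k =
      (∑ P ∈ PP K N, ∑ k ∈ Icc 1 N, if (Ideal.absNorm P).Prime ∧ k = 1 then a P k else 0) +
      ∑ P ∈ PP K N, ∑ k ∈ Icc 1 N, if (Ideal.absNorm P).Prime ∧ k = 1 then 0 else a P k := by
    rw [← Finset.sum_add_distrib]
    refine Finset.sum_congr rfl fun P _ => ?_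
    rw [← Finset.sum_add_distrib]
    refine Finset.sum_congr rfl fun k _ => ?_
    split_ifs <;> ring
  have hlogP : ∀ P ∈ PP K N, 0 ≤ Real.log (Ideal.absNorm P) := by
    intro P hP
    have h1 := one_le_absNorm K ((mem_PP K N P).1 hP).2.2
    exact Real.log_nonneg (by exact_mod_cast h1)
  -- the higher terms
  have hT2 : |∑ P ∈ PP K N, ∑ k ∈ Icc 1 N,
      if (Ideal.absNorm P).Prime ∧ k = 1 then 0 else a P k| ≤ C3 * C2 * N := by
    have h0 : ∀ P ∈ PP K N, ∀ k ∈ Icc 1 N,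
        0 ≤ (if (Ideal.absNorm P).Prime ∧ k = 1 then 0 else a P k) ∧
        (if (Ideal.absNorm P).Prime ∧ k = 1 then 0 else a P k) ≤ (C3 * N) *
          (if (Ideal.absNorm P).Prime ∧ k = 1 then 0 else
            Real.log (Ideal.absNorm P) / (Ideal.absNorm P : ℝ) ^ k) := by
      intro P hP k hk
      by_cases hc : (Ideal.absNorm P).Prime ∧ k = 1
      · rw [if_pos hc, if_pos hc, mul_zero]
        exact ⟨le_rfl, le_rfl⟩
      · rw [if_neg hc, if_neg hc]
        have hPne := ((mem_PP K N P).1 hP).2.2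
        have hPk : P ^ k ≠ ⊥ := pow_ne_zero k hPne
        have h1 := hdiv (P ^ k) hPk H hH1
        rw [hHd, map_pow, Nat.cast_pow] at h1
        have h2 : (1 : ℝ) ≤ ((VI K H (P ^ k)).card : ℝ) := by
          have h4 : (0 : 𝓞 K) ∈ VI K H (P ^ k) := by
            rw [mem_VI]
            exact ⟨(mem_V K H 0).1 (zero_mem_V K H hH0.le), Ideal.zero_mem _⟩
          exact_mod_cast Finset.card_pos.2 ⟨_, h4⟩
        refine ⟨mul_nonneg (hlogP P hP) (by linarith), ?_⟩
        calc a P k ≤ Real.log (Ideal.absNorm P) * (C3 * N / (Ideal.absNorm P : ℝ) ^ k) :=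
              mul_le_mul_of_nonneg_left (by linarith) (hlogP P hP)
          _ = (C3 * N) * (Real.log (Ideal.absNorm P) / (Ideal.absNorm P : ℝ) ^ k) := by ring
    rw [abs_of_nonneg (Finset.sum_nonneg fun P hP => Finset.sum_nonneg fun k hk =>
      (h0 P hP k hk).1)]
    calc ∑ P ∈ PP K N, ∑ k ∈ Icc 1 N, (if (Ideal.absNorm P).Prime ∧ k = 1 then 0 else a P k)
        ≤ ∑ P ∈ PP K N, ∑ k ∈ Icc 1 N, (C3 * N) *
          (if (Ideal.absNorm P).Prime ∧ k = 1 then 0 else
            Real.log (Ideal.absNorm P) / (Ideal.absNorm P : ℝ) ^ k) :=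
          Finset.sum_le_sum fun P hP => Finset.sum_le_sum fun k hk => (h0 P hP k hk).2
      _ = (C3 * N) * ∑ P ∈ PP K N, ∑ k ∈ Icc 1 N,
          (if (Ideal.absNorm P).Prime ∧ k = 1 then 0 else
            Real.log (Ideal.absNorm P) / (Ideal.absNorm P : ℝ) ^ k) := by
          simp only [Finset.mul_sum]
      _ ≤ (C3 * N) * C2 := mul_le_mul_of_nonneg_left (hhigh N) (by positivity)
      _ = C3 * C2 * N := by ring
  -- the prime ideals of prime norm
  set D := (PP K N).filter (fun P => (Ideal.absNorm P).Prime) with hD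
  have hT1 : (∑ P ∈ PP K N, ∑ k ∈ Icc 1 N,
      if (Ideal.absNorm P).Prime ∧ k = 1 then a P k else 0) = ∑ P ∈ D, a P 1 := by
    rw [hD, Finset.sum_filter]
    refine Finset.sum_congr rfl fun P _ => ?_
    by_cases hp : (Ideal.absNorm P).Prime
    · rw [if_pos hp]
      have h1 : ∀ k ∈ Icc 1 N, (if (Ideal.absNorm P).Prime ∧ k = 1 then a P k else 0) =
          if k = 1 then a P 1 else 0 := by
        intro k _
        by_cases hk : k = 1
        · rw [if_pos ⟨hp, hk⟩, if_pos hk, hk]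
        · rw [if_neg (fun h => hk h.2), if_neg hk]
      rw [Finset.sum_congr rfl h1, Finset.sum_ite_eq' (Icc 1 N) 1 (fun _ => a P 1),
        if_pos (Finset.mem_Icc.2 ⟨le_rfl, hN⟩)]
    · rw [if_neg hp]
      refine Finset.sum_eq_zero fun k _ => ?_
      rw [if_neg (fun h => hp h.1)]
  set M : ℝ := ∑ P ∈ D, Real.log (Ideal.absNorm P) / (Ideal.absNorm P : ℝ) with hM
  set g : ℕ → ℝ := fun k => Real.log k * (C4 * (H / (k : ℝ) ^ (1 / (d : ℝ))) ^ (d - 1)) +
    Real.log k with hg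
  have hT1' : |∑ P ∈ D, a P 1 - n0 * M| ≤ d * (C4 * C5 + Real.log 4) * N := by
    have h1 : |∑ P ∈ D, a P 1 - n0 * M| ≤ ∑ P ∈ D, g (Ideal.absNorm P) := by
      rw [hM, Finset.mul_sum, ← Finset.sum_sub_distrib]
      refine (Finset.abs_sum_le_sum_abs _ _).trans (Finset.sum_le_sum fun P hP => ?_)
      obtain ⟨hP1, hP2⟩ := Finset.mem_filter.1 hP
      obtain ⟨hPN, hPp, hPne⟩ := (mem_PP K N P).1 hP1
      have hsz : sz K P ≤ H := by
        unfold sz
        exact Real.rpow_le_rpow (Nat.cast_nonneg _) (by exact_mod_cast hPN) (by positivity)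
      have h2 := hequi P hPne H hsz
      have h3 := hlogP P hP1
      have e1 : a P 1 - n0 * (Real.log (Ideal.absNorm P) / (Ideal.absNorm P : ℝ)) =
          Real.log (Ideal.absNorm P) *
            (((VI K H P).card : ℝ) - n0 / Ideal.absNorm P) - Real.log (Ideal.absNorm P) := by
        simp only [ha, pow_one]
        ring
      rw [e1]
      refine (abs_sub _ _).trans ?_
      rw [abs_mul, abs_of_nonneg h3]
      have h4 : Real.log (Ideal.absNorm P) * |((VI K H P).card : ℝ) - n0 / Ideal.absNorm P| ≤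
          Real.log (Ideal.absNorm P) * (C4 * (H / sz K P) ^ (d - 1)) :=
        mul_le_mul_of_nonneg_left h2 h3
      simp only [hg]
      exact add_le_add h4 le_rfl
    refine h1.trans ?_
    rw [hD, sum_prime_norm K N g]
    have hgnn : ∀ k ∈ Icc 1 N, k.Prime → 0 ≤ g k := by
      intro k hk _
      have h2 : (1 : ℝ) ≤ k := by exact_mod_cast (Finset.mem_Icc.1 hk).1
      have h3 := Real.log_nonneg h2
      simp only [hg]
      positivity
    calc ∑ k ∈ Icc 1 N, (if k.Prime then ((PN K k).card : ℝ) * g k else 0)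
        ≤ ∑ k ∈ Icc 1 N, (d : ℝ) * (if k.Prime then g k else 0) := by
          refine Finset.sum_le_sum fun k hk => ?_
          by_cases hkp : k.Prime
          · rw [if_pos hkp, if_pos hkp]
            exact mul_le_mul_of_nonneg_right (by exact_mod_cast hcard k) (hgnn k hk hkp)
          · rw [if_neg hkp, if_neg hkp, mul_zero]
      _ = (d : ℝ) * ∑ k ∈ Icc 1 N, (if k.Prime then g k else 0) := by rw [Finset.mul_sum]
      _ = (d : ℝ) * (C4 * H ^ (d - 1) * (∑ k ∈ Icc 1 N, (if k.Prime then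
            Real.log k / ((k : ℝ) ^ (1 / (d : ℝ))) ^ (d - 1) else 0)) +
            ∑ k ∈ Icc 1 N, (if k.Prime then Real.log k else 0)) := by
          congr 1
          rw [Finset.mul_sum, ← Finset.sum_add_distrib]
          refine Finset.sum_congr rfl fun k _ => ?_
          by_cases hkp : k.Prime
          · rw [if_pos hkp, if_pos hkp, if_pos hkp]
            simp only [hg]
            rw [div_pow]
            ring
          · rw [if_neg hkp, if_neg hkp, if_neg hkp]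
            ring
      _ ≤ (d : ℝ) * (C4 * H ^ (d - 1) * (C5 * H) + Real.log 4 * N) := by
          refine mul_le_mul_of_nonneg_left (add_le_add ?_ (hcheb1 N)) hd0.le
          exact mul_le_mul_of_nonneg_left (hcheb2 N) (by positivity)
      _ = d * (C4 * C5 + Real.log 4) * N := by
          have h5 : H ^ (d - 1) * H = N := by
            rw [← pow_succ, Nat.sub_add_cancel (by omega), hHd]
          calc (d : ℝ) * (C4 * H ^ (d - 1) * (C5 * H) + Real.log 4 * N)
              = d * (C4 * C5 * (H ^ (d - 1) * H) + Real.log 4 * N) := by ring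
            _ = d * (C4 * C5 + Real.log 4) * N := by rw [h5]; ring
  -- the sum of the weights
  have hw : ∑ k ∈ Icc 1 N, wK K k / k = M / 2 := by
    rw [hM, hD, sum_prime_norm K N (fun k => Real.log k / k), Finset.sum_div]
    refine Finset.sum_congr rfl fun k _ => ?_
    unfold wK
    by_cases hkp : k.Prime
    · rw [if_pos hkp, if_pos hkp]; ring
    · rw [if_neg hkp, if_neg hkp]; ring
  have hmain : |n0 * Real.log N - n0 * M| ≤ CT * N := by
    have h1 := hlog H hH1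
    rw [hHlog, hHd, hS, hsplit, hT1] at h1
    have h2 := abs_le.1 h1
    have h3 := abs_le.1 hT2
    have h4 := abs_le.1 hT1'
    rw [abs_le, hCT]
    constructor <;> nlinarith [h2.1, h2.2, h3.1, h3.2, h4.1, h4.2]
  have h5 : |Real.log N - M| ≤ CT / c0 := by
    rw [← mul_sub, abs_mul, abs_of_pos hn0pos] at hmain
    rw [le_div_iff₀ hc0]
    have h6 : c0 * N * |Real.log N - M| ≤ CT * N :=
      (mul_le_mul_of_nonneg_right hn0low (abs_nonneg _)).trans hmain
    have h7 : (|Real.log N - M| * c0) * N ≤ CT * N := by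
      calc (|Real.log N - M| * c0) * N = c0 * N * |Real.log N - M| := by ring
        _ ≤ CT * N := h6
    exact le_of_mul_le_mul_right h7 hN0
  rw [hw]
  have h8 : M / 2 - Real.log N / 2 = -((Real.log N - M) / 2) := by ring
  rw [h8, abs_neg, abs_div, abs_of_pos (by norm_num : (0 : ℝ) < 2)]
  exact div_le_div_of_nonneg_right h5 (by norm_num)

end

end Pool.Agent.CMD
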