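import Pool.Agent.CMD.Defs

/-!
CMD / Prod: the logarithm of the norm of an element as a sum over powers of prime ideals.
-/

set_option autoImplicit false

namespace Pool.Agent.CMD

open NumberField Finset

section
variable (K : Type*) [Field K] [NumberField K]

private theorem mem_pow_iff (z : 𝓞 K) (hz : z ≠ 0) (P : Ideal (𝓞 K)) (hP : P.IsPrime)
    (hP0 : P ≠ ⊥) (k : ℕ) : z ∈ P ^ k ↔
      k ≤ (UniqueFactorizationMonoid.normalizedFactors (Ideal.span {z})).count P := by
  have hI : Ideal.span {z} ≠ (0 : Ideal (𝓞 K)) := by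
    intro h
    exact hz (Ideal.span_singleton_eq_bot.1 h)
  have hirr : Irreducible P := (Ideal.prime_of_isPrime hP0 hP).irreducible
  rw [← Ideal.span_singleton_le_iff_mem, ← Ideal.dvd_iff_le, pow_dvd_iff_le_emultiplicity,
    UniqueFactorizationMonoid.emultiplicity_eq_count_normalizedFactors hirr hI, normalize_eq]
  exact Nat.cast_le

private theorem two_le_norm (P : Ideal (𝓞 K)) (hP : P.IsPrime) (hP0 : P ≠ ⊥) :
    2 ≤ Ideal.absNorm P := by
  have h0 : Ideal.absNorm P ≠ 0 := fun h => hP0 (Ideal.absNorm_eq_zero_iff.1 h)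
  have h1 : Ideal.absNorm P ≠ 1 := fun h => hP.ne_top (Ideal.absNorm_eq_one_iff.1 h)
  omega

open Classical in
theorem prodform (z : 𝓞 K) (hz : z ≠ 0) (X : ℕ) (hX : Ideal.absNorm (Ideal.span {z}) ≤ X) :
    Real.log (Ideal.absNorm (Ideal.span {z})) =
      ∑ P ∈ PP K X, ∑ k ∈ Icc 1 X, if z ∈ P ^ k then Real.log (Ideal.absNorm P) else 0 := by
  have hI : Ideal.span {z} ≠ (0 : Ideal (𝓞 K)) := by
    intro h
    exact hz (Ideal.span_singleton_eq_bot.1 h)
  set I : Ideal (𝓞 K) := Ideal.span {z} with hIdef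
  set F := UniqueFactorizationMonoid.normalizedFactors I with hF
  have hprod : F.prod = I := Ideal.prod_normalizedFactors_eq_self hI
  have hN0 : Ideal.absNorm I ≠ 0 := fun h => hI (Ideal.absNorm_eq_zero_iff.1 h)
  have hFprime : ∀ P ∈ F, P.IsPrime ∧ P ≠ ⊥ := by
    intro P hP
    have h1 := UniqueFactorizationMonoid.prime_of_normalized_factor P hP
    exact ⟨Ideal.isPrime_of_prime h1, h1.ne_zero⟩
  have hnorm : Ideal.absNorm I = (F.map Ideal.absNorm).prod := by
    rw [← hprod, map_multiset_prod]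
  have hmemPP : ∀ P ∈ F, P ∈ PP K X := by
    intro P hP
    rw [mem_PP]
    refine ⟨le_trans ?_ hX, hFprime P hP⟩
    have h1 : P ∣ I := UniqueFactorizationMonoid.dvd_of_mem_normalizedFactors hP
    exact Nat.le_of_dvd (Nat.pos_of_ne_zero hN0) (map_dvd Ideal.absNorm h1)
  -- the count is at most X
  have hcount : ∀ P ∈ PP K X, F.count P ≤ X := by
    intro P hP
    rw [mem_PP] at hP
    have h1 : z ∈ P ^ F.count P := (mem_pow_iff K z hz P hP.2.1 hP.2.2 _).2 le_rfl
    rw [← Ideal.span_singleton_le_iff_mem, ← Ideal.dvd_iff_le] at h1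
    have h2 := Nat.le_of_dvd (Nat.pos_of_ne_zero hN0) (map_dvd Ideal.absNorm h1)
    rw [map_pow] at h2
    have h3 : 2 ^ F.count P ≤ Ideal.absNorm P ^ F.count P :=
      Nat.pow_le_pow_left (two_le_norm K P hP.2.1 hP.2.2) _
    exact (Nat.lt_two_pow_self.le).trans (h3.trans (h2.trans hX))
  have hinner : ∀ P ∈ PP K X, (∑ k ∈ Icc 1 X, if z ∈ P ^ k then
      Real.log (Ideal.absNorm P) else 0) = (F.count P : ℝ) * Real.log (Ideal.absNorm P) := by
    intro P hP
    have hP' := hP
    rw [mem_PP] at hP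
    rw [← Finset.sum_filter, Finset.sum_const, nsmul_eq_mul]
    congr 2
    have h1 : (Icc 1 X).filter (fun k => z ∈ P ^ k) = Icc 1 (F.count P) := by
      ext k
      rw [Finset.mem_filter, Finset.mem_Icc, Finset.mem_Icc, mem_pow_iff K z hz P hP.2.1 hP.2.2]
      have := hcount P hP'
      constructor
      · rintro ⟨⟨h1, _⟩, h2⟩
        exact ⟨h1, h2⟩
      · rintro ⟨h1, h2⟩
        exact ⟨⟨h1, h2.trans this⟩, h2⟩
    rw [h1, Nat.card_Icc]
    simp
  rw [Finset.sum_congr rfl hinner, hnorm]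
  push_cast
  have hlog : Real.log ((F.map Ideal.absNorm).map (Nat.cast : ℕ → ℝ)).prod =
      (F.map (fun P => Real.log (Ideal.absNorm P : ℝ))).sum := by
    have h1 : ∀ G : Multiset (Ideal (𝓞 K)), (∀ P ∈ G, P.IsPrime ∧ P ≠ ⊥) →
        Real.log ((G.map Ideal.absNorm).map (Nat.cast : ℕ → ℝ)).prod =
          (G.map (fun P => Real.log (Ideal.absNorm P : ℝ))).sum := by
      intro G
      induction G using Multiset.induction_on with
      | empty => intro _; simp
      | cons P G ih =>
        intro hG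
        have hP := hG P (Multiset.mem_cons_self P G)
        have hG' : ∀ Q ∈ G, Q.IsPrime ∧ Q ≠ ⊥ := fun Q hQ => hG Q (Multiset.mem_cons_of_mem hQ)
        have hp0 : ((Ideal.absNorm P : ℕ) : ℝ) ≠ 0 := by
          have := two_le_norm K P hP.1 hP.2
          positivity
        have hpr0 : ((G.map Ideal.absNorm).map (Nat.cast : ℕ → ℝ)).prod ≠ 0 := by
          apply Multiset.prod_ne_zero
          intro h0
          rw [Multiset.map_map, Multiset.mem_map] at h0
          obtain ⟨Q, hQ, hQ0⟩ := h0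
          have := two_le_norm K Q (hG' Q hQ).1 (hG' Q hQ).2
          simp only [Function.comp] at hQ0
          have h3 : Ideal.absNorm Q = 0 := by exact_mod_cast hQ0
          omega
        rw [Multiset.map_cons, Multiset.map_cons, Multiset.prod_cons, Multiset.map_cons,
          Multiset.sum_cons, Real.log_mul hp0 hpr0, ih hG']
    exact h1 F hFprime
  rw [hlog, Finset.sum_multiset_map_count]
  have hsub : F.toFinset ⊆ PP K X := by
    intro P hP
    exact hmemPP P (Multiset.mem_toFinset.1 hP)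
  rw [← Finset.sum_subset hsub]
  · refine Finset.sum_congr rfl fun P _ => ?_
    rw [nsmul_eq_mul]
  · intro P _ hP
    rw [Multiset.mem_toFinset] at hP
    rw [Multiset.count_eq_zero_of_notMem hP]
    simp

end

end Pool.Agent.CMD
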