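import Pool.Agent.CMD.Cheb
import Pool.Agent.CMD.High
import Pool.Agent.CMD.Prod
import Pool.Agent.CMD.Rep
import Pool.Agent.CMD.Cells
import Pool.Agent.CMD.Equi
import Pool.Agent.CMD.LogN
import Pool.Agent.CMD.MertK
import Pool.Agent.CMD.Final
import Pool.Agent.CMD.Gap

/-!
CMD: Mertens' theorem for number fields, the theorem for number fields, all progressions.
-/

set_option autoImplicit false

namespace Pool.Agent.CMD

open NumberField

/-- Mertens' theorem for the prime ideals of prime norm of a number field of degree at least 2 -/
theorem mertK (K : Type*) [Field K] [NumberField K] (hd : 2 ≤ Module.finrank ℚ K) : Mert K :=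
  mertK_of K hd cheb1 (fun d hd => cheb2 d hd) (card_PN_le K) (higher K) (prodform K) (V_low K)
    (div_up K) (equi K) (lognorm K)

theorem thmA : ThmA := by
  intro K _ _ φ hφ hr
  exact final_conj (mertK K (two_le_finrank φ hr)) (wsqK K) φ hφ

end Pool.Agent.CMD
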