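import Pool.Agent.CYD.Step
import Pool.Agent.CYD.Pack2
import Pool.Agent.CMD.Defs
import Pool.Agent.CMD.DPs

/-!
CMD: the main induction for a number field with an automorphism `e` of its ring of integers,
from Mertens' theorem for the prime ideals of prime norm.
-/

set_option autoImplicit false

namespace Pool.Agent.CMD

open NumberField Finset

open Pool.Agent.CYD (hh jensen cls cnt step exists_prime_interval)

theorem consts (C E : ℝ) (hC : 0 ≤ C) (hE : 0 ≤ E) : ∃ Z : ℕ, 4 ≤ Z ∧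
    1 ≤ Real.log ((Z : ℝ) / 4) / 2 - 2 * C ∧ ∃ c : ℝ, 0 < c ∧
    c * (√(1 + Real.log (2 * Z)) + 2 * C + E) ≤ 1 / (4 * Z) ∧ c * Z ≤ 1 := by
  have hE1 : 1 ≤ Real.exp (2 * (1 + 2 * C)) := Real.one_le_exp (by linarith)
  obtain ⟨Z, hZr⟩ : ∃ Z : ℕ, 4 * Real.exp (2 * (1 + 2 * C)) ≤ Z := exists_nat_ge _
  have hZ4 : (4 : ℝ) ≤ Z := by linarith
  have hZ4' : 4 ≤ Z := by exact_mod_cast hZ4
  have hZ0 : (0 : ℝ) < Z := by linarith
  have h1 : 2 * (1 + 2 * C) ≤ Real.log ((Z : ℝ) / 4) := by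
    rw [Real.le_log_iff_exp_le (by positivity), le_div_iff₀ (by norm_num)]
    linarith
  have hs : 1 ≤ √(1 + Real.log (2 * Z)) := by
    rw [Real.one_le_sqrt]
    have : 0 ≤ Real.log (2 * Z) := Real.log_nonneg (by linarith)
    linarith
  obtain ⟨r, hr⟩ : ∃ r : ℝ, r = √(1 + Real.log (2 * Z)) + 2 * C + E := ⟨_, rfl⟩
  have hr1 : 1 ≤ r := by linarith
  have hr0 : 0 < r := by linarith
  refine ⟨Z, hZ4', by linarith, 1 / (4 * Z) / r, by positivity, ?_, ?_⟩
  · rw [← hr, div_mul_cancel₀ _ hr0.ne']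
  · have h2 : 1 / (4 * (Z : ℝ)) / r * Z = 1 / (4 * r) := by field_simp
    rw [h2, div_le_one (by positivity)]
    linarith

/-- the ideal form of the theorem, with the packing bound -/
def Main2 {K : Type*} [Field K] [NumberField K] (e : 𝓞 K ≃+* 𝓞 K) : Prop :=
  ∃ c C₁ : ℝ, 0 < c ∧ 1 ≤ C₁ ∧ ∀ (M : ℝ) (I : Ideal (𝓞 K)), I ≠ ⊥ →
    ∀ S : Finset (𝓞 K), 2 ≤ S.card → (∀ x ∈ S, ∀ y ∈ S, x - y ∈ I) →
    (∀ x ∈ S, ∀ y ∈ S, ((Ideal.absNorm (Ideal.span {x - y}) : ℕ) : ℝ) ≤ M) →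
    1 ≤ Real.log (C₁ * M) - Real.log (Ideal.absNorm I) - Real.log S.card ∧
    hh c (Real.log (C₁ * M) - Real.log (Ideal.absNorm I)) S.card ≤ W e S

/-- Mertens' theorem for the prime ideals of prime norm -/
def Mert (K : Type*) [Field K] [NumberField K] : Prop :=
  ∃ C : ℝ, 0 ≤ C ∧ ∀ N : ℕ, 1 ≤ N → |∑ k ∈ Icc 1 N, wK K k / k - Real.log N / 2| ≤ C

/-- the packing bound -/
theorem packK (K : Type*) [Field K] [NumberField K] (hmert : Mert K) :
    ∃ C₁ : ℝ, 1 ≤ C₁ ∧ ∀ (M : ℝ) (I : Ideal (𝓞 K)), I ≠ ⊥ →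
      ∀ S : Finset (𝓞 K), 2 ≤ S.card → (∀ x ∈ S, ∀ y ∈ S, x - y ∈ I) →
      (∀ x ∈ S, ∀ y ∈ S, ((Ideal.absNorm (Ideal.span {x - y}) : ℕ) : ℝ) ≤ M) →
      (S.card : ℝ) * Ideal.absNorm I ≤ C₁ * M := by
  classical
  obtain ⟨C, hC, hS⟩ := hmert
  refine ⟨2 * Real.exp (4 * C + 1), ?_, ?_⟩
  · have : 1 ≤ Real.exp (4 * C + 1) := Real.one_le_exp (by linarith)
    linarith
  intro M I hI S hS2 hSI hSM
  have hNI : 0 < Ideal.absNorm I := Nat.pos_of_ne_zero (by
    rw [Ne, Ideal.absNorm_eq_zero_iff]; exact hI)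
  have hNIr : (0 : ℝ) < Ideal.absNorm I := by exact_mod_cast hNI
  have hdvd : ∀ J : Ideal (𝓞 K), ∀ x ∈ S, ∀ y ∈ S, x ≠ y → x - y ∈ J →
      (Ideal.absNorm J : ℝ) ≤ M := by
    intro J x hx y hy hxy hJ
    have h1 : Ideal.absNorm J ∣ Ideal.absNorm (Ideal.span {x - y}) :=
      Ideal.absNorm_dvd_absNorm_of_le ((Ideal.span_singleton_le_iff_mem _).2 hJ)
    have h2 : Ideal.absNorm (Ideal.span {x - y}) ≠ 0 := by
      rw [Ne, Ideal.absNorm_eq_zero_iff, Ideal.span_singleton_eq_bot]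
      exact sub_ne_zero.2 hxy
    have h3 := Nat.le_of_dvd (Nat.pos_of_ne_zero h2) h1
    exact (Nat.cast_le.2 h3).trans (hSM x hx y hy)
  obtain ⟨a, ha, b, hb, hab⟩ := one_lt_card.1 (show 1 < S.card by omega)
  have hIM := hdvd I a ha b hb hab (hSI a ha b hb)
  have hX : 1 ≤ M / Ideal.absNorm I := by
    rw [le_div_iff₀ hNIr, one_mul]; exact hIM
  obtain ⟨p, hwp, hp1, hp2⟩ := exists_prime_interval (wK K) C hS _ hX
  have hpp : p.Prime := by
    by_contra h
    exact hwp (by unfold wK; rw [if_neg h])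
  have hTne : (PN K p).Nonempty := by
    rw [← card_pos]
    by_contra h
    have h0 : (PN K p).card = 0 := by omega
    exact hwp (by unfold wK; rw [if_pos hpp, h0]; simp)
  obtain ⟨P, hP⟩ := hTne
  obtain ⟨-, hP0, hPn⟩ := (mem_PN K p P).1 hP
  obtain ⟨J, hJc, hJ, -, hJS⟩ := cls K I P hI hP0 S hSI
  have hone : ∀ A ∈ J, A.card ≤ 1 := by
    intro A hA
    rw [card_le_one]
    intro x hx y hy
    by_contra hxy
    have h1 := hdvd (I * P) x ((hJ A hA).1 hx) y ((hJ A hA).1 hy) hxy ((hJ A hA).2.2 x hx y hy)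
    rw [map_mul, hPn] at h1
    push_cast at h1
    rw [div_lt_iff₀ hNIr] at hp1
    nlinarith
  have hcard : S.card ≤ p := by
    calc S.card ≤ (J.biUnion id).card := by
          apply card_le_card
          intro x hx
          obtain ⟨A, hA, hxA⟩ := hJS x hx
          exact mem_biUnion.2 ⟨A, hA, hxA⟩
      _ ≤ ∑ A ∈ J, (id A).card := card_biUnion_le
      _ ≤ ∑ _A ∈ J, 1 := sum_le_sum fun A hA => hone A hA
      _ = J.card := by simp
      _ ≤ p := by rw [← hPn]; exact hJc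
  have hcr : (S.card : ℝ) ≤ p := by exact_mod_cast hcard
  calc (S.card : ℝ) * Ideal.absNorm I ≤ (2 * Real.exp (4 * C + 1) * (M / Ideal.absNorm I)) *
        Ideal.absNorm I := by
        gcongr
        exact hcr.trans hp2
    _ = 2 * Real.exp (4 * C + 1) * M := by field_simp

variable {K : Type*} [Field K] [NumberField K] (e : 𝓞 K ≃+* 𝓞 K)

theorem main_step (C : ℝ) (hC : 0 ≤ C)
    (hS : ∀ N : ℕ, 1 ≤ N → |∑ k ∈ Icc 1 N, wK K k / k - Real.log N / 2| ≤ C)
    (hwsq : ∀ N : ℕ, ∑ k ∈ Icc 1 N, wK K k * k ≤ (Module.finrank ℚ K : ℝ) * N ^ 2)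
    (Z : ℕ) (hZ : 4 ≤ Z) (hZ2 : 1 ≤ Real.log ((Z : ℝ) / 4) / 2 - 2 * C)
    (c : ℝ) (hc : 0 < c)
    (hc2 : c * (√(1 + Real.log (2 * Z)) + 2 * C + (Module.finrank ℚ K : ℝ)) ≤ 1 / (4 * Z))
    (hcZ : c * Z ≤ 1) (M G : ℝ) (hMG : Real.log M ≤ G)
    (I : Ideal (𝓞 K)) (hI : I ≠ ⊥) (S : Finset (𝓞 K)) (hS2 : 2 ≤ S.card)
    (hSI : ∀ x ∈ S, ∀ y ∈ S, x - y ∈ I)
    (hSM : ∀ x ∈ S, ∀ y ∈ S, ((Ideal.absNorm (Ideal.span {x - y}) : ℕ) : ℝ) ≤ M)
    (hL : 1 ≤ G - Real.log (Ideal.absNorm I) - Real.log S.card)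
    (IH : ∀ P : Ideal (𝓞 K), P ≠ ⊥ → 2 ≤ Ideal.absNorm P → ∀ A : Finset (𝓞 K), A ⊆ S →
      2 ≤ A.card → (∀ x ∈ A, ∀ y ∈ A, x - y ∈ I * P) →
      1 ≤ G - Real.log (Ideal.absNorm (I * P)) - Real.log A.card ∧
        hh c (G - Real.log (Ideal.absNorm (I * P))) A.card ≤ W e A) :
    hh c (G - Real.log (Ideal.absNorm I)) S.card ≤ W e S := by
  classical
  have hI0 : (0 : ℝ) < Ideal.absNorm I := by
    exact_mod_cast Nat.pos_of_ne_zero (fun h => hI (Ideal.absNorm_eq_zero_iff.1 h))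
  obtain ⟨n, hn⟩ : ∃ n : ℕ, n = S.card := ⟨_, rfl⟩
  obtain ⟨B, hB⟩ : ∃ B : ℝ, B = G - Real.log (Ideal.absNorm I) := ⟨_, rfl⟩
  obtain ⟨L, hLd⟩ : ∃ L : ℝ, L = B - Real.log n := ⟨_, rfl⟩
  rw [← hB, ← hn]
  rw [← hB, ← hn, ← hLd] at hL
  have hn2 : 2 ≤ n := by omega
  have hn0 : (0 : ℝ) < n := by exact_mod_cast (by omega : 0 < n)
  have hlogn : 0 ≤ Real.log (n : ℝ) := Real.log_natCast_nonneg _
  by_cases hnZ : n < Z
  · have h1 : (n : ℝ) ≤ W e S := by
      rw [hn]
      exact_mod_cast W_lower2 e S hS2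
    have h2 : hh c B n ≤ c * n ^ 2 := by
      unfold hh
      rw [← hLd]
      apply div_le_self (by positivity)
      rw [Real.one_le_sqrt]
      have hB1 : 1 ≤ B := by linarith
      calc (1 : ℝ) = 1 * 1 := by ring
        _ ≤ B * L := mul_le_mul hB1 hL zero_le_one (by linarith)
    have h3 : c * n ≤ 1 :=
      (mul_le_mul_of_nonneg_left (by exact_mod_cast hnZ.le) hc.le).trans hcZ
    have h4 : c * (n : ℝ) ^ 2 ≤ n := by
      calc c * (n : ℝ) ^ 2 = c * n * n := by ring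
        _ ≤ 1 * n := mul_le_mul_of_nonneg_right h3 hn0.le
        _ = n := one_mul _
    linarith
  · push Not at hnZ
    have hwp : ∀ p, wK K p ≠ 0 → p.Prime ∧ (0 : ℝ) < (PN K p).card := by
      intro p h
      unfold wK at h
      split_ifs at h with h1
      · refine ⟨h1, ?_⟩
        rcases Nat.eq_zero_or_pos (PN K p).card with h2 | h2
        · rw [h2] at h
          simp at h
        · exact_mod_cast h2
      · exact absurd rfl h
    have hw : ∀ k, 0 ≤ wK K k := by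
      intro k
      unfold wK
      split_ifs
      · have := Real.log_natCast_nonneg k
        positivity
      · exact le_rfl
    have hmean : ∀ p, (0 : ℝ) < (PN K p).card → ∀ b : ℝ, (∀ P ∈ PN K p, b ≤ (DP e I S P : ℝ)) →
        b ≤ (∑ P ∈ PN K p, (DP e I S P : ℝ)) / (PN K p).card := by
      intro p hp b hb
      rw [le_div_iff₀ hp]
      have h1 := Finset.card_nsmul_le_sum (PN K p) (fun P => (DP e I S P : ℝ)) b hb
      rw [nsmul_eq_mul] at h1
      linarith
    have hfin : c * (n : ℝ) ^ 2 / √(L * (Real.log n + L)) ≤ (W e S : ℝ) := by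
      refine step (wK K) hw C hC hS (Module.finrank ℚ K : ℝ) (Nat.cast_nonneg _) hwsq Z hZ hZ2
        c hc hc2 n hnZ L hL (W e S : ℝ)
        (fun p => (∑ P ∈ PN K p, (DP e I S P : ℝ)) / (PN K p).card) ?_ ?_ ?_
      · intro p hp1 hp2
        refine hmean p (hwp p hp1).2 _ (fun P hP => ?_)
        obtain ⟨-, hP0, hPN⟩ := (mem_PN K p P).1 hP
        have h1 := DP_low1 e I P hI hP0 S hSI
        rw [hPN, ← hn] at h1
        have h2 : n ≤ 2 * DP e I S P := by omega
        have h3 : (n : ℝ) ≤ 2 * (DP e I S P : ℝ) := by exact_mod_cast h2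
        linarith
      · intro p hp1 hp2
        refine hmean p (hwp p hp1).2 _ (fun P hP => ?_)
        obtain ⟨-, hP0, hPN⟩ := (mem_PN K p P).1 hP
        have hpp := (hwp p hp1).1
        have hp0 : (0 : ℝ) < p := by exact_mod_cast hpp.pos
        have hlogIP : Real.log (Ideal.absNorm (I * P)) =
            Real.log (Ideal.absNorm I) + Real.log p := by
          rw [map_mul, hPN, Nat.cast_mul, Real.log_mul hI0.ne' hp0.ne']
        have hBp : G - Real.log (Ideal.absNorm (I * P)) = B - Real.log p := by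
          rw [hlogIP, hB]
          ring
        have h1 := DP_low2 e I P hI hP0 p hPN S hSI (by omega) c (B - Real.log p) hc.le
          (by
            intro A hA hA2 hAI
            have h2 := IH P hP0 (by rw [hPN]; exact hpp.two_le) A hA hA2 hAI
            rw [hBp] at h2
            exact h2)
        have h3 : Real.log ((n : ℝ) / p) = Real.log n - Real.log p :=
          Real.log_div hn0.ne' hp0.ne'
        have h4 : (p : ℝ) * hh c (B - Real.log p) ((S.card : ℝ) / p) =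
            c * (n : ℝ) ^ 2 / (p * √(L * (Real.log (n / p) + L))) := by
          unfold hh
          rw [← hn, h3]
          have h5 : (B - Real.log p) * (B - Real.log p - (Real.log n - Real.log p)) =
              L * (Real.log n - Real.log p + L) := by
            rw [hLd]
            ring
          rw [h5]
          field_simp
        rw [h4] at h1
        exact h1
      · have hdisj : ∀ p ∈ (Icc 1 (n / 2)).filter (fun p => p.Prime),
            ∀ p' ∈ (Icc 1 (n / 2)).filter (fun p => p.Prime), p ≠ p' →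
            Disjoint (PN K p) (PN K p') := by
          intro p hp p' hp' hne
          rw [Finset.disjoint_left]
          intro P hP hP'
          have h1 := ((mem_PN K p P).1 hP).2.2
          have h2 := ((mem_PN K p' P).1 hP').2.2
          exact hne (h1.symm.trans h2)
        have h1 := DP_sum e I hI M S hSI hSM
          (((Icc 1 (n / 2)).filter (fun p => p.Prime)).biUnion (PN K))
          (by
            intro P hP
            obtain ⟨p, hp, hPp⟩ := Finset.mem_biUnion.1 hP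
            have h2 := (mem_PN K p P).1 hPp
            exact ⟨h2.1, h2.2.1⟩)
        rw [Finset.sum_biUnion (fun p hp p' hp' hne => hdisj p hp p' hp' hne)] at h1
        have h2 : ∑ p ∈ Icc 1 (n / 2), wK K p * ((∑ P ∈ PN K p, (DP e I S P : ℝ)) /
              (PN K p).card) =
            (1 / 2) * ∑ p ∈ (Icc 1 (n / 2)).filter (fun p => p.Prime),
              ∑ P ∈ PN K p, Real.log (Ideal.absNorm P) * (DP e I S P : ℝ) := by
          rw [Finset.mul_sum, Finset.sum_filter]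
          apply Finset.sum_congr rfl
          intro p hp
          unfold wK
          split_ifs with hg
          · have h3 : ∑ P ∈ PN K p, Real.log (Ideal.absNorm P) * (DP e I S P : ℝ) =
                Real.log p * ∑ P ∈ PN K p, (DP e I S P : ℝ) := by
              rw [Finset.mul_sum]
              apply Finset.sum_congr rfl
              intro P hP
              rw [((mem_PN K p P).1 hP).2.2]
            rw [h3]
            rcases Finset.eq_empty_or_nonempty (PN K p) with h4 | h4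
            · rw [h4]
              simp
            · have h5 : ((PN K p).card : ℝ) ≠ 0 := by
                exact_mod_cast (Finset.card_pos.2 h4).ne'
              field_simp
          · rw [zero_mul]
        rw [h2]
        have h4 : (0 : ℝ) ≤ W e S := Nat.cast_nonneg _
        have h5 : (W e S : ℝ) * (Real.log M - Real.log (Ideal.absNorm I)) ≤
            (W e S : ℝ) * (Real.log n + L) := by
          apply mul_le_mul_of_nonneg_left _ h4
          rw [hLd, hB]
          linarith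
        calc (1 / 2 : ℝ) * ∑ p ∈ (Icc 1 (n / 2)).filter (fun p => p.Prime),
              ∑ P ∈ PN K p, Real.log (Ideal.absNorm P) * (DP e I S P : ℝ)
            ≤ (1 / 2 : ℝ) * ((W e S : ℝ) *
                (2 * Real.log M - 2 * Real.log (Ideal.absNorm I))) :=
              mul_le_mul_of_nonneg_left h1 (by norm_num)
          _ = (W e S : ℝ) * (Real.log M - Real.log (Ideal.absNorm I)) := by ring
          _ ≤ _ := h5
    have h6 : hh c B n = c * (n : ℝ) ^ 2 / √(L * (Real.log n + L)) := by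
      unfold hh
      have h7 : B * (B - Real.log n) = L * (Real.log n + L) := by
        rw [hLd]
        ring
      rw [h7]
    rw [h6]
    exact hfin

theorem main2 (hmert : Mert K)
    (hwsq : ∀ N : ℕ, ∑ k ∈ Icc 1 N, wK K k * k ≤ (Module.finrank ℚ K : ℝ) * N ^ 2) :
    Main2 e := by
  classical
  obtain ⟨C₀, hC₀, hpack⟩ := packK K hmert
  obtain ⟨C, hC, hS⟩ := hmert
  obtain ⟨Z, hZ, hZ2, c, hc, hc2, hcZ⟩ := consts C (Module.finrank ℚ K : ℝ) hC
    (Nat.cast_nonneg _)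
  have hfirst : ∀ (M : ℝ) (I : Ideal (𝓞 K)), I ≠ ⊥ →
      ∀ S : Finset (𝓞 K), 2 ≤ S.card → (∀ x ∈ S, ∀ y ∈ S, x - y ∈ I) →
      (∀ x ∈ S, ∀ y ∈ S, ((Ideal.absNorm (Ideal.span {x - y}) : ℕ) : ℝ) ≤ M) →
      Real.log M ≤ Real.log (Real.exp 1 * C₀ * M) ∧
      1 ≤ Real.log (Real.exp 1 * C₀ * M) - Real.log (Ideal.absNorm I) - Real.log S.card := by
    intro M I hI S hS2 hSI hSM
    have h1 := hpack M I hI S hS2 hSI hSM
    have hI0 : (0 : ℝ) < Ideal.absNorm I := by
      exact_mod_cast Nat.pos_of_ne_zero (fun h => hI (Ideal.absNorm_eq_zero_iff.1 h))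
    have hn0 : (0 : ℝ) < S.card := by exact_mod_cast (by omega : 0 < S.card)
    have h2 : 0 < C₀ * M := lt_of_lt_of_le (by positivity) h1
    have hM0 : 0 < M := by
      by_contra hcon
      push Not at hcon
      have : C₀ * M ≤ 0 := mul_nonpos_of_nonneg_of_nonpos (by linarith) hcon
      linarith
    have h3 := Real.log_le_log (by positivity) h1
    rw [Real.log_mul hn0.ne' hI0.ne'] at h3
    have h4 : Real.log (Real.exp 1 * C₀ * M) = 1 + Real.log (C₀ * M) := by
      rw [mul_assoc, Real.log_mul (Real.exp_pos 1).ne' h2.ne', Real.log_exp]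
    have h5 : Real.log M ≤ Real.log (C₀ * M) := Real.log_le_log hM0 (by nlinarith)
    exact ⟨by linarith, by linarith⟩
  refine ⟨c, Real.exp 1 * C₀, hc, ?_, ?_⟩
  · have h1 := Real.add_one_le_exp (1 : ℝ)
    nlinarith
  intro M I hI S hS2 hSI hSM
  refine ⟨(hfirst M I hI S hS2 hSI hSM).2, ?_⟩
  have key : ∀ k : ℕ, ∀ I : Ideal (𝓞 K), I ≠ ⊥ → ⌊M⌋₊ + 1 - Ideal.absNorm I ≤ k →
      ∀ S : Finset (𝓞 K), 2 ≤ S.card → (∀ x ∈ S, ∀ y ∈ S, x - y ∈ I) →
      (∀ x ∈ S, ∀ y ∈ S, ((Ideal.absNorm (Ideal.span {x - y}) : ℕ) : ℝ) ≤ M) →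
      hh c (Real.log (Real.exp 1 * C₀ * M) - Real.log (Ideal.absNorm I)) S.card ≤ W e S := by
    intro k
    induction k with
    | zero =>
      intro I hI hk S hS2 hSI hSM
      exfalso
      obtain ⟨a, ha, b, hb, hab⟩ := Finset.one_lt_card.1 (show 1 < S.card by omega)
      have h1 : Ideal.absNorm I ∣ Ideal.absNorm (Ideal.span {a - b}) :=
        Ideal.absNorm_dvd_absNorm_of_le ((Ideal.span_singleton_le_iff_mem _).2 (hSI a ha b hb))
      have h2 : Ideal.absNorm (Ideal.span {a - b}) ≠ 0 := by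
        rw [Ne, Ideal.absNorm_eq_zero_iff, Ideal.span_singleton_eq_bot]
        exact sub_ne_zero.2 hab
      have h3 := Nat.le_of_dvd (Nat.pos_of_ne_zero h2) h1
      have h4 : Ideal.absNorm (Ideal.span {a - b}) ≤ ⌊M⌋₊ := Nat.le_floor (hSM a ha b hb)
      omega
    | succ k ih =>
      intro I hI hk S hS2 hSI hSM
      obtain ⟨hMG, hL⟩ := hfirst M I hI S hS2 hSI hSM
      refine main_step e C hC hS hwsq Z hZ hZ2 c hc hc2 hcZ M
        (Real.log (Real.exp 1 * C₀ * M)) hMG I hI S hS2 hSI hSM hL ?_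
      intro P hP0 hP2 A hA hA2 hAI
      have hIP : I * P ≠ ⊥ := by
        intro h
        rcases Ideal.mul_eq_bot.1 h with h1 | h1
        · exact hI h1
        · exact hP0 h1
      have hAM : ∀ x ∈ A, ∀ y ∈ A, ((Ideal.absNorm (Ideal.span {x - y}) : ℕ) : ℝ) ≤ M :=
        fun x hx y hy => hSM x (hA hx) y (hA hy)
      refine ⟨(hfirst M (I * P) hIP A hA2 hAI hAM).2, ih (I * P) hIP ?_ A hA2 hAI hAM⟩
      have h1 : Ideal.absNorm I ≠ 0 := fun h => hI (Ideal.absNorm_eq_zero_iff.1 h)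
      have h2 : Ideal.absNorm I + 1 ≤ Ideal.absNorm (I * P) := by
        rw [map_mul]
        have h3 : Ideal.absNorm I * 2 ≤ Ideal.absNorm I * Ideal.absNorm P :=
          Nat.mul_le_mul_left _ hP2
        omega
      omega
  exact key _ I hI le_rfl S hS2 hSI hSM

end Pool.Agent.CMD
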